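import Pool.Agent.helper91.XM.Defs
import Pool.Agent.helper81.LC.Poly

/-!
# XM-P: `xorMaj k` is computable in polynomial time (Mathlib's `TM2ComputableInPolyTime`)

The library `Pool.Agent.helper81.LC` (loop programs with counting terms, compiled to Mathlib's
machines) does everything except the empty input, for which one command is added.
-/

set_option autoImplicit false

namespace Pool.Agent.helper91.XM

open Finset (range mem_filter mem_range card_range)
open Pool.Agent.helper81.LC
open Pool.Agent.helper64.LP (Cmd Ev PolyTime oneStack)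

/-! ## Empty output -/

/-- if the output is empty, output `b` -/
def nilc (nv na : ℕ) (b : Bool) : Cm nv na :=
  .seq (look .out) (.ite (fun v => v.isNone) (pushc .out b) nop)

theorem ev_nilc (nv na : ℕ) (b : Bool) (l : List Bool) : ∃ v n, n ≤ 4 ∧
    Ev (nilc nv na b) none (oneStack K.out l) v
      (oneStack K.out (if l = [] then [b] else l)) n := by
  rcases l with _ | ⟨a, l⟩
  · refine ⟨none, _, ?_, Ev.seq _ _ _ _ _ _ _ _ _ _ (Ev.peek _ _ _ _)
      (Ev.ite_true _ _ _ _ _ _ _ _ ?_ (?_ : Ev _ _ _ _ _ 1))⟩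
    · norm_num
    · simp [oneStack]
    · have h := Ev.push (K.out : K nv na) (fun _ : Option Bool => b)
        (((oneStack K.out ([] : List Bool) : Sk nv na) K.out).head?)
        (oneStack K.out ([] : List Bool) : Sk nv na)
      have e : Function.update (oneStack K.out ([] : List Bool) : Sk nv na) K.out
          (b :: (oneStack K.out ([] : List Bool) : Sk nv na) K.out) = oneStack K.out [b] := by
        funext k
        cases k <;> simp [oneStack]
      rw [e] at h
      exact h
  · refine ⟨_, _, ?_, Ev.seq _ _ _ _ _ _ _ _ _ _ (Ev.peek _ _ _ _)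
      (Ev.ite_false _ _ _ _ _ _ _ _ ?_ (Ev.load _ _ _))⟩
    · norm_num
    · simp [oneStack]

/-- `polyTime_outp` for a program whose empty output is replaced by `b` -/
theorem polyTime_nil {nv na : ℕ} (p : Pr nv na) (o : Fin na) (ℓ : Tm nv na) (b : Bool) :
    PolyTime (fun w => if outp p o ℓ w = [] then [b] else outp p o ℓ w) := by
  obtain ⟨T1, hT1, h1⟩ := runs_init nv na
  obtain ⟨T2, hT2, h2⟩ := runs_cP p
  obtain ⟨T3, hT3, h3⟩ := runs_fin o ℓ
  obtain ⟨A, D, hAD⟩ := (hT1.add (hT2.add hT3)).add (Pb.const 20)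
  refine Pool.Agent.helper64.LP.compile (fun _ : K nv na => Bool) (Option Bool) .inp .out
    (Equiv.refl Bool) (Equiv.refl Bool) none
    (.seq (allc p o ℓ) (.seq (.load fun _ => none) (.seq (nilc nv na b) (.load fun _ => none))))
    (fun w => if outp p o ℓ w = [] then [b] else outp p o ℓ w) A D ?_
  intro w
  obtain ⟨v1, n1, hn1, e1⟩ := h1 w none
  obtain ⟨v2, n2, hn2, e2⟩ := h2 w (fun _ _ => false) (fun _ => 0) [] (fun i => Nat.zero_le _) v1
  obtain ⟨n3, hn3, e3⟩ := h3 w (run w p (fun _ => 0) (fun _ _ => false)) v2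
  obtain ⟨v4, n4, hn4, e4⟩ := ev_nilc nv na b (outp p o ℓ w)
  refine ⟨(n1 + (n2 + (n3 + 1 + 1) + 1) + 1) + (1 + (n4 + 1 + 1) + 1) + 1, ?_, ?_⟩
  · have := hAD w.length
    simp only at this
    omega
  · have hid : ∀ l : List Bool, l.map (Equiv.refl Bool).symm = l := by
      intro l
      simp
    rw [hid, hid]
    exact Ev.seq _ _ _ _ _ _ _ _ _ _ (Ev.seq _ _ _ _ _ _ _ _ _ _ e1 (Ev.seq _ _ _ _ _ _ _ _ _ _ e2
      (Ev.seq _ _ _ _ _ _ _ _ _ _ e3 (Ev.load _ _ _))))
      (Ev.seq _ _ _ _ _ _ _ _ _ _ (Ev.load _ _ _) (Ev.seq _ _ _ _ _ _ _ _ _ _ e4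
        (Ev.load _ _ _)))

/-! ## The terms -/

/-- the half size of a block -/
def halfT (k : ℕ) : Tm 3 1 :=
  .sum 1 (.lt (.mul (.num (2 * k)) (.add (.var 1) (.num 1))) (.add .size (.num (k + 1))))

/-- the number of ones in block `j` -/
def onesT (k j : ℕ) : Tm 3 1 :=
  .sum 2 (.mul (.lt (.var 2) (.sub (.mul (.num 2) (halfT k)) (.num 1)))
    (.inp (.add (.mul (.num k) (.var 2)) (.num j))))

/-- the XOR of the first `j` majorities -/
def xorT (k : ℕ) : ℕ → Tm 3 1
  | 0 => .num 0
  | j + 1 => .add (.sub (xorT k j) (.lt (halfT k) (.add (onesT k j) (.num 1))))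
      (.sub (.lt (halfT k) (.add (onesT k j) (.num 1))) (xorT k j))

/-- the input as a point -/
def pt (w : List Bool) : Fin w.length → ZMod 2 := fun i => if w.get i then 1 else 0

theorem val_halfT {k : ℕ} (hk : 1 ≤ k) (w : List Bool) (A : Fin 1 → ℕ → Bool) (ρ : Fin 3 → ℕ) :
    val w A ρ (halfT k) = half k w.length := by
  simp only [halfT, val, Function.update_self, half]
  obtain ⟨N, hN⟩ : ∃ N, N = w.length := ⟨_, rfl⟩
  rw [← hN, ← Finset.card_filter]
  have hM : (N + k) / (2 * k) ≤ N := by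
    have h1 := Nat.div_mul_le_self (N + k) (2 * k)
    by_contra hc
    have h2 : N + 1 ≤ (N + k) / (2 * k) := by omega
    have h3 := Nat.mul_le_mul_right (2 * k) h2
    nlinarith [Nat.mul_le_mul_right N hk]
  have : (range N).filter (fun x => 2 * k * (x + 1) < N + (k + 1)) = range ((N + k) / (2 * k)) := by
    ext x
    simp only [mem_filter, mem_range]
    have h : x < (N + k) / (2 * k) ↔ 2 * k * (x + 1) < N + (k + 1) := by
      rw [Nat.lt_iff_add_one_le, Nat.le_div_iff_mul_le (by omega), mul_comm (x + 1)]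
      omega
    rw [h]
    constructor
    · exact fun h => h.2
    · intro h'
      exact ⟨lt_of_lt_of_le (h.2 h') hM, h'⟩
  rw [this, card_range]

theorem bit_pt (w : List Bool) (i : ℕ) : bit (pt w) i = 1 ↔ w.getD i false = true := by
  unfold bit pt
  by_cases h : i < w.length
  · rw [dif_pos h, List.getD_eq_getElem _ _ h]
    by_cases h' : w[i] = true
    · simp [h']
    · simp [h']
  · rw [dif_neg h, List.getD_eq_default _ _ (not_lt.1 h)]
    simp

theorem two_half_le {k : ℕ} (hk : 1 ≤ k) (n : ℕ) : 2 * half k n - 1 ≤ n := by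
  have h : half k n * (2 * k) ≤ n + k := Nat.div_mul_le_self _ _
  obtain ⟨m, hm⟩ : ∃ m, m = half k n := ⟨_, rfl⟩
  rw [← hm] at h ⊢
  rcases m with _ | m
  · simp
  · have h2 : k * (2 * m + 1) ≤ n := by nlinarith
    have h3 : 1 * (2 * m + 1) ≤ k * (2 * m + 1) := Nat.mul_le_mul_right _ hk
    omega

theorem val_onesT {k : ℕ} (hk : 1 ≤ k) (j : ℕ) (w : List Bool) (A : Fin 1 → ℕ → Bool)
    (ρ : Fin 3 → ℕ) : val w A ρ (onesT k j) = ones k w.length (pt w) j := by
  simp only [onesT, val, val_halfT hk, Function.update_self, ones]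
  rw [Finset.card_filter]
  have h := two_half_le hk w.length
  obtain ⟨M, hM⟩ : ∃ M, M = 2 * half k w.length - 1 := ⟨_, rfl⟩
  rw [← hM] at h ⊢
  rw [← Finset.sum_subset (Finset.range_subset_range.2 h)]
  · refine Finset.sum_congr rfl fun i hi => ?_
    rw [if_pos (mem_range.1 hi), one_mul, b2n]
    simp only [bit_pt]
  · intro i _ hi
    rw [if_neg (by simpa using hi), zero_mul]

theorem val_xorT {k : ℕ} (hk : 1 ≤ k) (w : List Bool) (A : Fin 1 → ℕ → Bool)
    (ρ : Fin 3 → ℕ) (j : ℕ) : val w A ρ (xorT k j) ≤ 1 ∧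
      ((val w A ρ (xorT k j) : ℕ) : ZMod 2) =
        ∑ i ∈ range j, if half k w.length ≤ ones k w.length (pt w) i then 1 else 0 := by
  induction j with
  | zero => simp [xorT, val]
  | succ j ih =>
    obtain ⟨h1, h2⟩ := ih
    rw [Finset.sum_range_succ, ← h2]
    simp only [xorT, val, val_halfT hk, val_onesT hk, Nat.lt_succ_iff]
    obtain ⟨x, hx⟩ : ∃ x, x = val w A ρ (xorT k j) := ⟨_, rfl⟩
    rw [← hx] at h1 ⊢
    have hx' : x = 0 ∨ x = 1 := by omega
    rcases hx' with rfl | rfl <;> split_ifs <;> simp <;> decide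

/-- the program -/
def prog (k : ℕ) : Pr 3 1 := .upd 0 0 (xorT k k)

theorem outp_prog {k : ℕ} (hk : 1 ≤ k) (w : List Bool) :
    (if outp (prog k) 0 (.num 1) w = [] then [decide (xorMaj k 0 (fun _ => 0) = 1)]
      else outp (prog k) 0 (.num 1) w) =
    Computability.encodeBool (decide (xorMaj k w.length (pt w) = 1)) := by
  rcases w with _ | ⟨a, w⟩
  · have : outp (prog k) 0 (.num 1) [] = [] := by simp [outp]
    rw [if_pos this]
    have e : pt [] = fun _ => 0 := by
      funext i
      exact i.elim0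
    simp only [Computability.encodeBool, List.length_nil]
    rw [e]
    rfl
  · have e : outp (prog k) 0 (.num 1) (a :: w) =
        [decide (0 < val (a :: w) (fun _ _ => false) (Function.update (fun _ => 0) 0 0)
          (xorT k k))] := by
      simp [outp, prog, run, val, List.range_succ_eq_map]
    rw [e, if_neg (by simp)]
    obtain ⟨h1, h2⟩ := val_xorT hk (a :: w) (fun _ _ => false) (Function.update (fun _ => 0) 0 0) k
    obtain ⟨x, hx⟩ : ∃ x, x = val (a :: w) (fun _ _ => false) (Function.update (fun _ => 0) 0 0)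
          (xorT k k) := ⟨_, rfl⟩
    rw [← hx] at h1 h2 ⊢
    have e3 : xorMaj k (a :: w).length (pt (a :: w)) = (x : ZMod 2) := by
      rw [h2]; rfl
    rw [e3]
    have hx' : x = 0 ∨ x = 1 := by omega
    rcases hx' with rfl | rfl <;> simp [Computability.encodeBool]

theorem xorMaj_polyTime {k : ℕ} (hk : 1 ≤ k) :
    Nonempty (Turing.TM2ComputableInPolyTime (id : List Bool → List Bool)
      Computability.encodeBool
      (fun w : List Bool => decide (xorMaj k w.length (fun i => if w.get i then 1 else 0) = 1))) := by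
  obtain ⟨c⟩ := polyTime_nil (prog k) 0 (.num 1) (decide (xorMaj k 0 (fun _ => 0) = 1))
  refine ⟨⟨c.toTM2ComputableAux, c.time, fun w => ?_⟩⟩
  have h := c.outputsFun w
  have e := outp_prog hk w
  simp only [id] at h ⊢
  rw [e] at h
  exact h

end Pool.Agent.helper91.XM
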