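import Pool.Agent.helper91.XM.Stmt

/-!
# `P ⊆ NP` for Mathlib's polynomial time machines

`InNP L`: there are a polynomial `q` and a polynomial time verifier `V` (Mathlib's
`Turing.TM2ComputableInPolyTime`, the pair `(x, w)` encoded by `Computability.encodingProd`) such that
`x ∈ L` iff `V (x, w) = true` for some `w` of length at most `q (length of x)`.
-/

set_option autoImplicit false

open Turing StateTransition

namespace Pool.Agent.helper91.XM

namespace NPAux

variable (M : FinTM2)

/-- the alphabets of the new machine: input stack, auxiliary stack, stacks of `M` -/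
abbrev GG : Option (Option M.K) → Type
  | none => Bool ⊕ Bool
  | some none => M.Γ M.k₀
  | some (some k) => M.Γ k

/-- the states of the new machine -/
abbrev SS : Type := M.σ × Option (Bool ⊕ Bool)

/-- the labels of the new machine -/
abbrev LL : Type := Bool ⊕ M.Λ

/-- translation of the statements of `M` -/
def tr : TM2.Stmt M.Γ M.Λ M.σ → TM2.Stmt (GG M) (LL M) (SS M)
  | TM2.Stmt.push k f q => TM2.Stmt.push (some (some k) : Option (Option M.K)) (fun s => f s.1) (tr q)
  | TM2.Stmt.peek k f q =>
      TM2.Stmt.peek (some (some k) : Option (Option M.K)) (fun s t => (f s.1 t, s.2)) (tr q)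
  | TM2.Stmt.pop k f q =>
      TM2.Stmt.pop (some (some k) : Option (Option M.K)) (fun s t => (f s.1 t, s.2)) (tr q)
  | TM2.Stmt.load a q => TM2.Stmt.load (fun s => (a s.1, s.2)) (tr q)
  | TM2.Stmt.branch f q₁ q₂ => TM2.Stmt.branch (fun s => f s.1) (tr q₁) (tr q₂)
  | TM2.Stmt.goto f => TM2.Stmt.goto (fun s => Sum.inr (f s.1))
  | TM2.Stmt.halt => TM2.Stmt.halt

/-- the stacks of the new machine -/
def lift (I : List (Bool ⊕ Bool)) (T : List (M.Γ M.k₀)) (S : ∀ k, List (M.Γ k)) :
    ∀ k, List (GG M k)
  | none => I
  | some none => T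
  | some (some k) => S k

variable {M}

lemma update_lift_old (I : List (Bool ⊕ Bool)) (T : List (M.Γ M.k₀)) (S : ∀ k, List (M.Γ k))
    (k : M.K) (x : List (M.Γ k)) :
    Function.update (lift M I T S) (some (some k)) x = lift M I T (Function.update S k x) := by
  funext k'
  rcases k' with _ | _ | k'
  · rfl
  · rfl
  · by_cases h : k' = k
    · subst h
      rw [Function.update_self]
      simp only [lift]
      rw [Function.update_self]
    · rw [Function.update_of_ne (by simpa using h)]
      simp only [lift]
      rw [Function.update_of_ne h]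

lemma update_lift_inp (I J : List (Bool ⊕ Bool)) (T : List (M.Γ M.k₀)) (S : ∀ k, List (M.Γ k)) :
    Function.update (lift M I T S) none J = lift M J T S := by
  funext k'
  rcases k' with _ | _ | k' <;> rfl

lemma update_lift_tmp (I : List (Bool ⊕ Bool)) (T U : List (M.Γ M.k₀)) (S : ∀ k, List (M.Γ k)) :
    Function.update (lift M I T S) (some none) U = lift M I U S := by
  funext k'
  rcases k' with _ | _ | k' <;> rfl

/-- configurations of the new machine from those of `M` -/
def liftCfg (c : TM2.Cfg M.Γ M.Λ M.σ) : TM2.Cfg (GG M) (LL M) (SS M) :=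
  ⟨c.l.map Sum.inr, (c.var, none), lift M [] [] c.stk⟩

lemma stepAux_tr (q : TM2.Stmt M.Γ M.Λ M.σ) : ∀ (v : M.σ) (S : ∀ k, List (M.Γ k)),
    TM2.stepAux (tr M q) (v, none) (lift M [] [] S) = liftCfg (TM2.stepAux q v S) := by
  induction q with
  | push k f q ih =>
    intro v S
    simp only [tr, TM2.stepAux]
    rw [update_lift_old]
    exact ih _ _
  | peek k f q ih =>
    intro v S
    simp only [tr, TM2.stepAux]
    exact ih _ _
  | pop k f q ih =>
    intro v S
    simp only [tr, TM2.stepAux]
    rw [update_lift_old]
    exact ih _ _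
  | load a q ih =>
    intro v S
    simp only [tr, TM2.stepAux]
    exact ih _ _
  | branch f q₁ q₂ ih₁ ih₂ =>
    intro v S
    simp only [tr, TM2.stepAux]
    cases f v
    · exact ih₂ _ _
    · exact ih₁ _ _
  | goto f => intro v S; rfl
  | halt => intro v S; rfl

variable (M)

/-- the input symbol in the register -/
def val (s : SS M) : Bool := Sum.elim id id (s.2.getD (Sum.inl false))

/-- the program of the new machine -/
def prog (e : M.Γ M.k₀ ≃ Bool) : LL M → TM2.Stmt (GG M) (LL M) (SS M)
  | Sum.inl false =>
      TM2.Stmt.pop (none : Option (Option M.K)) (fun s t => (s.1, t)) <|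
      TM2.Stmt.branch (fun s => s.2.isNone) (TM2.Stmt.goto fun _ => Sum.inl true) <|
      TM2.Stmt.branch (fun s => (s.2.getD (Sum.inl false)).isLeft)
        (TM2.Stmt.push (some none : Option (Option M.K)) (fun s => e.symm (val M s)) <|
          TM2.Stmt.goto fun _ => Sum.inl false)
        (TM2.Stmt.goto fun _ => Sum.inl false)
  | Sum.inl true =>
      TM2.Stmt.pop (some none : Option (Option M.K))
        (fun s t => (s.1, Option.map (fun g => Sum.inl (e g)) t)) <|
      TM2.Stmt.branch (fun s => s.2.isNone) (TM2.Stmt.goto fun _ => Sum.inr M.main) <|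
      TM2.Stmt.push (some (some M.k₀) : Option (Option M.K)) (fun s => e.symm (val M s)) <|
        TM2.Stmt.goto fun _ => Sum.inl true
  | Sum.inr l => tr M (M.m l)

/-- iterates of the step function -/
def R (e : M.Γ M.k₀ ≃ Bool) (n : ℕ) (a b : TM2.Cfg (GG M) (LL M) (SS M)) : Prop :=
  (flip bind (TM2.step (prog M e)))^[n] (some a) = some b

variable {M} {e : M.Γ M.k₀ ≃ Bool}

lemma R.trans {m n : ℕ} {a b c : TM2.Cfg (GG M) (LL M) (SS M)} (h : R M e m a b)
    (h' : R M e n b c) : R M e (n + m) a c := by
  unfold R at *
  rw [Function.iterate_add_apply, h, h']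

lemma R.one {a b : TM2.Cfg (GG M) (LL M) (SS M)} (h : TM2.step (prog M e) a = some b) :
    R M e 1 a b := h

lemma step_lift (c : TM2.Cfg M.Γ M.Λ M.σ) :
    TM2.step (prog M e) (liftCfg c) = Option.map liftCfg (TM2.step M.m c) := by
  rcases c with ⟨_ | l, v, S⟩
  · rfl
  · simp only [TM2.step, liftCfg, Option.map_some, prog]
    rw [stepAux_tr]
    rfl

lemma iter_lift (n : ℕ) (c : Option (TM2.Cfg M.Γ M.Λ M.σ)) :
    (flip bind (TM2.step (prog M e)))^[n] (Option.map liftCfg c) =
      Option.map liftCfg ((flip bind (TM2.step M.m))^[n] c) := by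
  induction n generalizing c with
  | zero => rfl
  | succ n ih =>
    rw [Function.iterate_succ_apply, Function.iterate_succ_apply]
    have : flip bind (TM2.step (prog M e)) (Option.map liftCfg c) =
        Option.map liftCfg (flip bind (TM2.step M.m) c) := by
      rcases c with _ | c
      · rfl
      · exact step_lift c
    rw [this]
    exact ih _

lemma step_filter_nil (v : M.σ) (r : Option (Bool ⊕ Bool)) (T : List (M.Γ M.k₀))
    (S : ∀ k, List (M.Γ k)) :
    TM2.step (prog M e) ⟨some (Sum.inl false), (v, r), lift M [] T S⟩ =
      some ⟨some (Sum.inl true), (v, none), lift M [] T S⟩ := by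
  simp only [TM2.step, prog, TM2.stepAux]
  rw [update_lift_inp]
  rfl

lemma step_filter_cons (v : M.σ) (r : Option (Bool ⊕ Bool)) (a : Bool ⊕ Bool)
    (I : List (Bool ⊕ Bool)) (T : List (M.Γ M.k₀)) (S : ∀ k, List (M.Γ k)) :
    TM2.step (prog M e) ⟨some (Sum.inl false), (v, r), lift M (a :: I) T S⟩ =
      some ⟨some (Sum.inl false), (v, some a),
        lift M I (((Sum.getLeft? a).map e.symm).toList ++ T) S⟩ := by
  simp only [TM2.step, prog, TM2.stepAux]
  rw [update_lift_inp]
  rcases a with a | a
  · simp only [lift, List.head?_cons, List.tail_cons, Option.isNone_some, cond_false,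
      Option.getD_some, Sum.isLeft_inl, cond_true]
    rw [update_lift_tmp]
    rfl
  · rfl

lemma R_filter (v : M.σ) (I : List (Bool ⊕ Bool)) (S : ∀ k, List (M.Γ k)) :
    ∀ (r : Option (Bool ⊕ Bool)) (T : List (M.Γ M.k₀)),
    R M e (I.length + 1) ⟨some (Sum.inl false), (v, r), lift M I T S⟩
      ⟨some (Sum.inl true), (v, none),
        lift M [] (((I.filterMap Sum.getLeft?).map e.symm).reverse ++ T) S⟩ := by
  induction I with
  | nil => intro r T; exact R.one (step_filter_nil v r T S)
  | cons a I ih =>
    intro r T
    have h1 := R.one (step_filter_cons (e := e) v r a I T S)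
    have h2 := R.trans h1 (ih (some a) _)
    have h3 : (((a :: I).filterMap Sum.getLeft?).map e.symm).reverse ++ T =
        ((I.filterMap Sum.getLeft?).map e.symm).reverse ++
          (((Sum.getLeft? a).map e.symm).toList ++ T) := by
      rcases a with a | a
      · simp
      · simp [List.filterMap_cons]
    rw [h3]
    exact h2

lemma step_back_nil (v : M.σ) (S : ∀ k, List (M.Γ k)) :
    TM2.step (prog M e) ⟨some (Sum.inl true), (v, none), lift M [] [] S⟩ =
      some ⟨some (Sum.inr M.main), (v, none), lift M [] [] S⟩ := by
  simp only [TM2.step, prog, TM2.stepAux]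
  rw [update_lift_tmp]
  rfl

lemma step_back_cons (v : M.σ) (r : Option (Bool ⊕ Bool)) (a : M.Γ M.k₀)
    (T : List (M.Γ M.k₀)) (S : ∀ k, List (M.Γ k)) :
    TM2.step (prog M e) ⟨some (Sum.inl true), (v, r), lift M [] (a :: T) S⟩ =
      some ⟨some (Sum.inl true), (v, some (Sum.inl (e a))),
        lift M [] T (Function.update S M.k₀ (a :: S M.k₀))⟩ := by
  simp only [TM2.step, prog, TM2.stepAux]
  rw [update_lift_tmp]
  simp only [lift, List.head?_cons, List.tail_cons, Option.map_some, Option.isNone_some, cond_false,
    val, Option.getD_some, Sum.elim_inl, id, Equiv.symm_apply_apply]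
  rw [update_lift_old]

lemma R_back (v : M.σ) (T : List (M.Γ M.k₀)) :
    ∀ (r : Option (Bool ⊕ Bool)) (S : ∀ k, List (M.Γ k)), ∃ v' : Option (Bool ⊕ Bool),
    R M e T.length ⟨some (Sum.inl true), (v, r), lift M [] T S⟩
      ⟨some (Sum.inl true), (v, v'),
        lift M [] [] (Function.update S M.k₀ (T.reverse ++ S M.k₀))⟩ := by
  induction T with
  | nil =>
    intro r S
    refine ⟨r, ?_⟩
    simp only [List.length_nil, List.reverse_nil, List.nil_append, Function.update_eq_self]
    rfl
  | cons a T ih =>
    intro r S
    obtain ⟨v', h2⟩ := ih (some (Sum.inl (e a))) (Function.update S M.k₀ (a :: S M.k₀))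
    refine ⟨v', ?_⟩
    have h1 := R.one (step_back_cons (e := e) v r a T S)
    have h3 := R.trans h1 h2
    rw [Function.update_idem, Function.update_self] at h3
    have h4 : (a :: T).reverse ++ S M.k₀ = T.reverse ++ a :: S M.k₀ := by simp
    rw [h4]
    exact h3

variable (M) (e)

/-- the new machine -/
def MM : FinTM2 where
  K := Option (Option M.K)
  kFin := haveI := M.kFin; inferInstance
  k₀ := none
  k₁ := some (some M.k₁)
  Γ := GG M
  Λ := LL M
  main := Sum.inl false
  ΛFin := haveI := M.ΛFin; inferInstance
  σ := SS M
  initialState := (M.initialState, none)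
  σFin := haveI := M.σFin; inferInstance
  Γk₀Fin := inferInstanceAs (Fintype (Bool ⊕ Bool))
  m := prog M e

variable {M} {e}

lemma initList_MM (I : List (Bool ⊕ Bool)) :
    initList (MM M e) I = (⟨some (Sum.inl false), (M.initialState, none),
      lift M I [] (fun _ => [])⟩ : TM2.Cfg (GG M) (LL M) (SS M)) := by
  unfold initList
  congr 1
  funext k
  revert k
  change ∀ k : Option (Option M.K), _
  rintro (_ | _ | k)
  · rfl
  · rfl
  · rfl

lemma initList_M (I : List (M.Γ M.k₀)) :
    initList M I = (⟨some M.main, M.initialState,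
      Function.update (fun _ => []) M.k₀ I⟩ : TM2.Cfg M.Γ M.Λ M.σ) := by
  unfold initList
  congr 1
  funext k
  by_cases h : k = M.k₀
  · subst h
    rw [Function.update_self, dif_pos rfl]
    rfl
  · rw [Function.update_of_ne h, dif_neg h]

lemma haltList_gen (N : FinTM2) (I : List (N.Γ N.k₁)) :
    haltList N I = (⟨none, N.initialState,
      Function.update (fun _ => []) N.k₁ I⟩ : TM2.Cfg N.Γ N.Λ N.σ) := by
  unfold haltList
  congr 1
  funext k
  by_cases h : k = N.k₁
  · subst h
    rw [Function.update_self, dif_pos rfl]
    rfl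
  · rw [Function.update_of_ne h, dif_neg h]

lemma lift_nil : lift M [] [] (fun _ => []) = fun _ => [] := by
  funext k
  rcases k with _ | _ | k <;> rfl

lemma haltList_MM (I : List (M.Γ M.k₁)) :
    haltList (MM M e) I = (liftCfg (haltList M I) : TM2.Cfg (GG M) (LL M) (SS M)) := by
  have h1 := haltList_gen (MM M e) I
  have h2 := haltList_gen M I
  have h3 : (liftCfg (haltList M I) : TM2.Cfg (GG M) (LL M) (SS M)) =
      ⟨none, (M.initialState, none), lift M [] [] (Function.update (fun _ => []) M.k₁ I)⟩ := by
    rw [h2]
    rfl
  rw [h3, ← update_lift_old, lift_nil]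
  exact h1

lemma getLeft_encode (x w : List Bool) :
    ((Computability.encodingProd (Computability.encodingList Bool)
        (Computability.encodingList Bool)).encode (x, w)).filterMap Sum.getLeft? = x := by
  have h1 : (Sum.getLeft? ∘ (Sum.inl : Bool → Bool ⊕ Bool)) = some := rfl
  have h2 : (Sum.getLeft? ∘ (Sum.inr : Bool → Bool ⊕ Bool)) = fun _ => none := rfl
  simp [Computability.encodingProd, Computability.encodingList, h1, h2]

lemma length_encode (x w : List Bool) :
    ((Computability.encodingProd (Computability.encodingList Bool)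
        (Computability.encodingList Bool)).encode (x, w)).length = x.length + w.length := by
  simp [Computability.encodingProd, Computability.encodingList]

lemma run (x w : List Bool) (out : List (M.Γ M.k₁)) (t : ℕ)
    (h : TM2OutputsInTime M (x.map e.symm) (some out) t) :
    Nonempty (TM2OutputsInTime (MM M e) ((Computability.encodingProd
      (Computability.encodingList Bool) (Computability.encodingList Bool)).encode (x, w))
      (some out) (2 * (x.length + w.length) + 2 + t)) := by
  set I := (Computability.encodingProd (Computability.encodingList Bool)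
    (Computability.encodingList Bool)).encode (x, w) with hI
  have hlen : I.length = x.length + w.length := length_encode x w
  have hleft : I.filterMap Sum.getLeft? = x := getLeft_encode x w
  have h1 := R_filter (e := e) M.initialState I (fun _ => []) none []
  rw [hleft, List.append_nil] at h1
  obtain ⟨v', h2⟩ := R_back (e := e) M.initialState ((x.map e.symm).reverse) none (fun _ => [])
  rw [List.reverse_reverse, List.append_nil] at h2
  -- the last register is empty only after one more step
  have h3 : R M e 1 ⟨some (Sum.inl true), (M.initialState, v'),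
      lift M [] [] (Function.update (fun _ => []) M.k₀ (x.map e.symm))⟩
      (liftCfg (initList M (x.map e.symm))) := by
    rw [initList_M]
    refine R.one ?_
    simp only [TM2.step, prog, TM2.stepAux]
    rw [update_lift_tmp]
    rfl
  have h4 := h.evals_in_steps
  have h5 : R M e h.steps (liftCfg (initList M (x.map e.symm))) (liftCfg (haltList M out)) := by
    unfold R
    have h7 := iter_lift (e := e) h.steps (some (initList M (x.map e.symm)))
    have h6 : (flip bind (TM2.step M.m))^[h.steps] (some (initList M (x.map e.symm))) =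
      some (haltList M out) := h4
    exact h7.trans (congrArg (Option.map liftCfg) h6)
  have h6 := R.trans (R.trans (R.trans h1 h2) h3) h5
  have e1 := initList_MM (e := e) I
  have e2 := haltList_MM (e := e) out
  unfold R at h6
  rw [← e1, ← e2] at h6
  refine ⟨⟨⟨h.steps + (1 + (((x.map e.symm).reverse).length + (I.length + 1))), h6⟩, ?_⟩⟩
  have := h.steps_le_m
  simp only [List.length_reverse, List.length_map, hlen]
  omega

end NPAux

lemma eval_mono (p : Polynomial ℕ) {a b : ℕ} (h : a ≤ b) : p.eval a ≤ p.eval b := by
  rw [Polynomial.eval_eq_sum_range, Polynomial.eval_eq_sum_range]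
  exact Finset.sum_le_sum fun i _ => Nat.mul_le_mul_left _ (Nat.pow_le_pow_left h i)

/-- `P ⊆ NP` -/
theorem inNP_of_polyTime (F : List Bool → Bool)
    (h : Nonempty (TM2ComputableInPolyTime (id : List Bool → List Bool)
      Computability.encodeBool F)) : InNP {x | F x = true} := by
  obtain ⟨h⟩ := h
  refine ⟨0, fun z => F z.1, ⟨?_⟩, ?_⟩
  · refine
      { tm := NPAux.MM h.tm h.inputAlphabet
        inputAlphabet := Equiv.refl (Bool ⊕ Bool)
        outputAlphabet := h.outputAlphabet
        time := 2 * Polynomial.X + 2 + h.time
        outputsFun := ?_ }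
    rintro ⟨x, w⟩
    have h1 := h.outputsFun x
    have h2 := Classical.choice (NPAux.run (e := h.inputAlphabet) x w _ _ h1)
    set I := (Computability.encodingProd (Computability.encodingList Bool)
      (Computability.encodingList Bool)).encode (x, w) with hI
    have hlen : I.length = x.length + w.length := NPAux.length_encode x w
    have e1 : (List.map (Equiv.refl (Bool ⊕ Bool)).invFun I : List (Bool ⊕ Bool)) = I :=
      List.map_id I
    have e3 : 2 * (x.length + w.length) + 2 + Polynomial.eval (id x).length h.time
        ≤ Polynomial.eval I.length (2 * Polynomial.X + 2 + h.time) := by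
      have h4 : Polynomial.eval (id x).length h.time ≤ Polynomial.eval I.length h.time :=
        eval_mono _ (by simp only [id]; omega)
      simp only [Polynomial.eval_add, Polynomial.eval_mul, Polynomial.eval_ofNat,
        Polynomial.eval_X]
      omega
    have key : ∀ (l' : List (Bool ⊕ Bool)), l' = I →
        TM2OutputsInTime (NPAux.MM h.tm h.inputAlphabet) l'
          (some (List.map h.outputAlphabet.invFun (Computability.encodeBool (F x))))
          (Polynomial.eval I.length (2 * Polynomial.X + 2 + h.time)) := by
      rintro _ rfl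
      exact ⟨h2.toEvalsTo, h2.steps_le_m.trans e3⟩
    exact key _ e1
  · intro x
    constructor
    · intro hx
      exact ⟨[], by simp, hx⟩
    · rintro ⟨w, _, hw⟩
      exact hw

end Pool.Agent.helper91.XM
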