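import Pool.Agent.helper91.XM.Defs
import Pool.Agent.helper99.XM.Numerics

/-!
# XM: asymptotics
-/

set_option autoImplicit false

open Filter Topology

namespace Pool.Agent.helper91.XM

theorem evt2 (k : ℕ) (hk : 1 ≤ k) (C c δ : ℝ) (hC : 0 ≤ C) (hδ : 0 ≤ δ)
    (h : c < k * (1 / 2 - δ)) : ∃ N : ℕ, 2 ≤ N ∧ ∀ n : ℕ, N ≤ n →
      C * (max (Real.logb 2 n) ((n : ℝ) ^ δ) / Real.sqrt n) ^ k ≤ (n : ℝ) ^ (-c) := by
  have hk' : (0 : ℝ) < k := by exact_mod_cast hk
  obtain ⟨ε, hε, hcε⟩ : ∃ ε : ℝ, 0 < ε ∧ c < k * (1 / 2 - (δ + ε)) := by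
    refine ⟨(k * (1 / 2 - δ) - c) / (2 * k), by
      apply div_pos (by linarith) (by linarith), ?_⟩
    have : (k : ℝ) * ((k * (1 / 2 - δ) - c) / (2 * k)) = (k * (1 / 2 - δ) - c) / 2 := by
      field_simp
    nlinarith
  have h1 : ∀ᶠ x : ℝ in atTop, Real.logb 2 x ≤ x ^ (δ + ε) := by
    have := isLittleO_log_rpow_atTop (r := δ + ε) (by linarith)
    have h2 := this.bound (c := Real.log 2) (Real.log_pos (by norm_num))
    filter_upwards [h2, eventually_ge_atTop (1 : ℝ)] with x hx hx1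
    rw [Real.norm_of_nonneg (Real.log_nonneg hx1), Real.norm_of_nonneg (by positivity)] at hx
    rw [Real.logb, div_le_iff₀ (Real.log_pos (by norm_num))]
    linarith
  have h3 : ∀ᶠ x : ℝ in atTop, C ≤ x ^ (k * (1 / 2 - (δ + ε)) - c) :=
    (tendsto_rpow_atTop (by linarith)).eventually_ge_atTop C
  have h4 : ∀ᶠ x : ℝ in atTop, C * (max (Real.logb 2 x) (x ^ δ) / Real.sqrt x) ^ k ≤ x ^ (-c) := by
    filter_upwards [h1, h3, eventually_ge_atTop (1 : ℝ)] with x hx hx3 hx1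
    have hx0 : 0 < x := by linarith
    have hm : max (Real.logb 2 x) (x ^ δ) ≤ x ^ (δ + ε) :=
      max_le hx (Real.rpow_le_rpow_of_exponent_le hx1 (by linarith))
    have hm0 : 0 ≤ max (Real.logb 2 x) (x ^ δ) := le_max_of_le_right (by positivity)
    have hs : Real.sqrt x = x ^ (1 / 2 : ℝ) := Real.sqrt_eq_rpow x
    have h5 : max (Real.logb 2 x) (x ^ δ) / Real.sqrt x ≤ x ^ (δ + ε - 1 / 2) := by
      rw [Real.rpow_sub hx0, hs]
      exact div_le_div_of_nonneg_right hm (by positivity)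
    calc C * (max (Real.logb 2 x) (x ^ δ) / Real.sqrt x) ^ k
        ≤ C * (x ^ (δ + ε - 1 / 2)) ^ k := by
          refine mul_le_mul_of_nonneg_left ?_ hC
          exact pow_le_pow_left₀ (by positivity) h5 k
      _ = C * x ^ ((δ + ε - 1 / 2) * k) := by
          rw [Real.rpow_mul hx0.le, Real.rpow_natCast]
      _ ≤ x ^ (k * (1 / 2 - (δ + ε)) - c) * x ^ ((δ + ε - 1 / 2) * k) :=
          mul_le_mul_of_nonneg_right hx3 (by positivity)
      _ = x ^ (-c) := by
          rw [← Real.rpow_add hx0]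
          congr 1
          ring
  obtain ⟨N, hN⟩ := eventually_atTop.1 (tendsto_natCast_atTop_atTop.eventually h4)
  exact ⟨max N 2, le_max_right _ _, fun n hn => hN n ((le_max_left _ _).trans hn)⟩

theorem half_lt {k n : ℕ} (hk : 1 ≤ k) : n < k * (2 * half k n + 1) := by
  unfold half
  have h := Nat.lt_mul_div_succ (n + k) (show 0 < 2 * k by omega)
  nlinarith

theorem one_le_half {k n : ℕ} (hk : 1 ≤ k) (hn : k ≤ n) : 1 ≤ half k n := by
  unfold half
  rw [Nat.one_le_div_iff (by omega)]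
  omega

theorem quant_sharp {k n d : ℕ} (hk : 1 ≤ k) (hn : k ≤ n) :
    ((4 * d * ((2 * half k n - 1).choose (half k n) : ℝ)) ^ k * 3 ^ (k * (k - 1) / 2)) /
      2 ^ (k * (2 * half k n - 1)) ≤
      (4 * Real.sqrt k * d / Real.sqrt n) ^ k * 3 ^ (k * (k - 1) / 2) := by
  set m := half k n with hm
  have hm1 : 1 ≤ m := one_le_half hk hn
  have hb := Helper99.XM.beta_le m hm1
  have hn0 : (0 : ℝ) < n := by
    have : 0 < n := by omega
    exact_mod_cast this
  have hk0 : (0 : ℝ) < k := by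
    have : 0 < k := by omega
    exact_mod_cast this
  have h1 : (1 : ℝ) / Real.sqrt (2 * m + 1) ≤ Real.sqrt k / Real.sqrt n := by
    rw [div_le_div_iff₀ (by positivity) (by positivity), one_mul, ← Real.sqrt_mul hk0.le]
    apply Real.sqrt_le_sqrt
    exact_mod_cast (half_lt (n := n) hk).le
  have e : ((4 * d * ((2 * m - 1).choose m : ℝ)) ^ k * 3 ^ (k * (k - 1) / 2)) /
      2 ^ (k * (2 * m - 1)) =
      (4 * d * (((2 * m - 1).choose m : ℕ) / 2 ^ (2 * m - 1) : ℝ)) ^ k * 3 ^ (k * (k - 1) / 2) := by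
    rw [mul_comm k (2 * m - 1), pow_mul, mul_div_right_comm, ← div_pow]
    congr 2
    ring
  rw [e]
  refine mul_le_mul_of_nonneg_right ?_ (by positivity)
  refine pow_le_pow_left₀ (by positivity) ?_ _
  calc 4 * d * (((2 * m - 1).choose m : ℕ) / 2 ^ (2 * m - 1) : ℝ)
      ≤ 4 * d * (Real.sqrt k / Real.sqrt n) :=
        mul_le_mul_of_nonneg_left (hb.trans h1) (by positivity)
    _ = 4 * Real.sqrt k * d / Real.sqrt n := by ring

end Pool.Agent.helper91.XM
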