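import Pool.Agent.helper91.XM.Defs
import Pool.Agent.helper72.XM.Count

/-!
# XM-C: the cube of dimension `2 m - 1` is a block
-/

set_option autoImplicit false

open Finset

namespace Pool.Agent.helper91.XM

theorem mon_empty (q : ℕ) : mon (∅ : Finset (Fin q)) = 1 := by
  funext z
  simp [mon]

theorem mon_mem {q d : ℕ} {A : Finset (Fin q)} (h : A.card ≤ d) : mon A ∈ Vd q d :=
  Submodule.subset_span ⟨A, h, rfl⟩

theorem mon_mul_mon {q : ℕ} (A B : Finset (Fin q)) : mon A * mon B = mon (A ∪ B) := by
  classical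
  funext z
  have hsq : ∀ a : ZMod 2, a * a = a := by decide
  show (∏ i ∈ A, z i) * (∏ i ∈ B, z i) = ∏ i ∈ A ∪ B, z i
  rw [← Finset.union_sdiff_self_eq_union, Finset.prod_union Finset.disjoint_sdiff]
  have h1 : ∏ i ∈ B, z i = (∏ i ∈ B \ A, z i) * ∏ i ∈ B ∩ A, z i := by
    rw [← Finset.prod_union]
    · rw [Finset.sdiff_union_inter]
    · exact Finset.disjoint_sdiff_inter B A
  have h2 : (∏ i ∈ A, z i) * (∏ i ∈ B ∩ A, z i) = ∏ i ∈ A, z i := by
    have h3 : ∏ i ∈ A, z i = (∏ i ∈ A \ B, z i) * ∏ i ∈ A ∩ B, z i := by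
      rw [← Finset.prod_union]
      · rw [Finset.sdiff_union_inter]
      · exact Finset.disjoint_sdiff_inter A B
    rw [Finset.inter_comm B A, h3, mul_assoc, hsq]
  rw [h1, ← mul_assoc, mul_comm (∏ i ∈ A, z i) (∏ i ∈ B \ A, z i), mul_assoc, h2, mul_comm]

theorem Vd_one (q : ℕ) : (1 : Pt q → ZMod 2) ∈ Vd q 0 := by
  rw [← mon_empty q]
  exact mon_mem (by simp)

theorem Vd_mono {q a b : ℕ} (h : a ≤ b) : Vd q a ≤ Vd q b := by
  refine Submodule.span_mono ?_
  rintro f ⟨A, hA, rfl⟩
  exact ⟨A, hA.trans h, rfl⟩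

theorem Vd_mul {q a b : ℕ} {f g : Pt q → ZMod 2} (hf : f ∈ Vd q a) (hg : g ∈ Vd q b) :
    f * g ∈ Vd q (a + b) := by
  classical
  induction hf using Submodule.span_induction with
  | mem f hf =>
    obtain ⟨A, hA, rfl⟩ := hf
    induction hg using Submodule.span_induction with
    | mem g hg =>
      obtain ⟨B, hB, rfl⟩ := hg
      rw [mon_mul_mon]
      exact mon_mem ((Finset.card_union_le A B).trans (add_le_add hA hB))
    | zero => rw [mul_zero]; exact Submodule.zero_mem _
    | add g g' _ _ h h' => rw [mul_add]; exact Submodule.add_mem _ h h'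
    | smul c g _ h => rw [mul_smul_comm]; exact Submodule.smul_mem _ c h
  | zero => rw [zero_mul]; exact Submodule.zero_mem _
  | add f f' _ _ h h' => rw [add_mul]; exact Submodule.add_mem _ h h'
  | smul c f _ h => rw [smul_mul_assoc]; exact Submodule.smul_mem _ c h

/-- elements of `Vd q k` are given by coefficient vectors supported on sets of size at most `k` -/
theorem exists_coeff {q k : ℕ} {f : Pt q → ZMod 2} (hf : f ∈ Vd q k) :
    ∃ c : Finset (Fin q) → ZMod 2, (∀ S, k < S.card → c S = 0) ∧ ∀ x, f x = XMC.ev c x := by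
  classical
  induction hf using Submodule.span_induction with
  | mem f hf =>
    obtain ⟨A, hA, rfl⟩ := hf
    refine ⟨fun S => if S = A then 1 else 0, fun S hS => ?_, fun x => ?_⟩
    · show (if S = A then (1 : ZMod 2) else 0) = 0
      rw [if_neg]
      rintro rfl
      exact absurd hA (not_le.mpr hS)
    · unfold XMC.ev
      rw [Finset.sum_eq_single A]
      · show mon A x = (if A = A then (1 : ZMod 2) else 0) * XMC.mon A x
        rw [if_pos rfl, one_mul]; rfl
      · intro S _ hS
        show (if S = A then (1 : ZMod 2) else 0) * XMC.mon S x = 0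
        rw [if_neg hS, zero_mul]
      · intro h; exact absurd (Finset.mem_univ A) h
  | zero => exact ⟨0, fun _ _ => rfl, fun x => by simp [XMC.ev]⟩
  | add f g _ _ hf hg =>
    obtain ⟨c, hc, hcf⟩ := hf
    obtain ⟨c', hc', hcg⟩ := hg
    refine ⟨c + c', fun S hS => by simp [hc S hS, hc' S hS], fun x => ?_⟩
    rw [Pi.add_apply, hcf, hcg]
    unfold XMC.ev
    rw [← Finset.sum_add_distrib]
    exact Finset.sum_congr rfl fun S _ => by rw [Pi.add_apply, add_mul]
  | smul a f _ hf =>
    obtain ⟨c, hc, hcf⟩ := hf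
    refine ⟨a • c, fun S hS => by simp [hc S hS], fun x => ?_⟩
    rw [Pi.smul_apply, hcf]
    unfold XMC.ev
    rw [smul_eq_mul, Finset.mul_sum]
    exact Finset.sum_congr rfl fun S _ => by rw [Pi.smul_apply, smul_eq_mul, mul_assoc]

theorem vd_inj {m : ℕ} (hm : 1 ≤ m) (s : Bool) (f : Pt (2 * m - 1) → ZMod 2)
    (hf : f ∈ Vd (2 * m - 1) (m - 1)) (h : ∀ z ∈ side m s, f z = 0) : f = 0 := by
  obtain ⟨c, hc, hcf⟩ := exists_coeff hf
  have hc0 : c = 0 := by
    cases s
    · refine XMC.ev_inj_low (k := m - 1) hc fun x hx => ?_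
      rw [← hcf]
      refine h x ?_
      unfold side
      rw [if_neg (by simp), Finset.mem_filter]
      refine ⟨Finset.mem_univ _, ?_⟩
      have : XMC.wt x = wt x := rfl
      omega
    · refine XMC.ev_inj_high (k := m - 1) hc fun x hx => ?_
      rw [← hcf]
      refine h x ?_
      unfold side
      rw [if_pos rfl, Finset.mem_filter]
      refine ⟨Finset.mem_univ _, ?_⟩
      have : XMC.wt x = wt x := rfl
      omega
  funext x
  rw [hcf, hc0]
  simp [XMC.ev]

/-- the function with given coefficients on the sets of size at most `k` -/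
theorem sum_mem_Vd {q k : ℕ} (c : {S : Finset (Fin q) // S.card ≤ k} → ZMod 2) :
    (fun x : Pt q => ∑ S, mon S.1 x * c S) ∈ Vd q k := by
  have : (fun x : Pt q => ∑ S, mon S.1 x * c S) = ∑ S, c S • mon S.1 := by
    funext x
    rw [Finset.sum_apply]
    exact Finset.sum_congr rfl fun S _ => by rw [Pi.smul_apply, smul_eq_mul, mul_comm]
  rw [this]
  exact Submodule.sum_mem _ fun S _ => Submodule.smul_mem _ _ (mon_mem S.2)

theorem exists_lag {m : ℕ} (hm : 1 ≤ m) (s : Bool) (z : Pt (2 * m - 1)) (hz : z ∈ side m s) :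
    ∃ f ∈ Vd (2 * m - 1) (m - 1), ∀ z' ∈ side m s, f z' = if z' = z then 1 else 0 := by
  classical
  cases s
  · obtain ⟨R, -, hR⟩ := XMC.exists_inv_low m
    have hz' : XMC.wt z ≤ m - 1 := by
      unfold side at hz
      rw [if_neg (by simp), Finset.mem_filter] at hz
      have : XMC.wt z = wt z := rfl
      omega
    refine ⟨_, sum_mem_Vd fun S => R S ⟨z, hz'⟩, fun x hx => ?_⟩
    have hx' : XMC.wt x ≤ m - 1 := by
      unfold side at hx
      rw [if_neg (by simp), Finset.mem_filter] at hx
      have : XMC.wt x = wt x := rfl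
      omega
    have := congrFun (congrFun hR ⟨x, hx'⟩) ⟨z, hz'⟩
    rw [Matrix.mul_apply, Matrix.one_apply] at this
    simp only [Subtype.mk.injEq] at this
    exact this
  · obtain ⟨R, -, hR⟩ := XMC.exists_inv_high m hm
    have hz' : m ≤ XMC.wt z := by
      unfold side at hz
      rw [if_pos rfl, Finset.mem_filter] at hz
      exact hz.2
    refine ⟨_, sum_mem_Vd fun S => R S ⟨z, hz'⟩, fun x hx => ?_⟩
    have hx' : m ≤ XMC.wt x := by
      unfold side at hx
      rw [if_pos rfl, Finset.mem_filter] at hx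
      exact hx.2
    have := congrFun (congrFun hR ⟨x, hx'⟩) ⟨z, hz'⟩
    rw [Matrix.mul_apply, Matrix.one_apply] at this
    simp only [Subtype.mk.injEq] at this
    exact this

/-- `Vd q k` is spanned by `Vd q j` and the monomials of size in `(j, k]` -/
theorem Vd_le_sup {q j k : ℕ} :
    Vd q k ≤ Vd q j ⊔ Submodule.span (ZMod 2)
      ((univ.filter (fun S : Finset (Fin q) => j < S.card ∧ S.card ≤ k)).image mon :
        Set (Pt q → ZMod 2)) := by
  classical
  refine Submodule.span_le.mpr ?_
  rintro f ⟨A, hA, rfl⟩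
  rcases Nat.lt_or_ge j A.card with h | h
  · refine (le_sup_right : _ ≤ Vd q j ⊔ _) (Submodule.subset_span ?_)
    rw [Finset.coe_image]
    exact ⟨A, by simp [h, hA], rfl⟩
  · exact (le_sup_left : _ ≤ Vd q j ⊔ _) (mon_mem h)

theorem finrank_Vd_le {q j k : ℕ} :
    Module.finrank (ZMod 2) (Vd q k) ≤ Module.finrank (ZMod 2) (Vd q j) +
      (univ.filter (fun S : Finset (Fin q) => j < S.card ∧ S.card ≤ k)).card := by
  classical
  refine (Submodule.finrank_mono (Vd_le_sup (j := j))).trans
    ((Submodule.finrank_add_le_finrank_add_finrank _ _).trans ?_)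
  refine Nat.add_le_add_left ?_ _
  exact (finrank_span_finset_le_card _).trans Finset.card_image_le

theorem card_layer_aux {m D : ℕ} (hm : 1 ≤ m) (P : Finset (Fin (2 * m - 1)) → Prop)
    [DecidablePred P] (hP : ∀ S, P S → m ≤ S.card + D ∧ S.card ≤ m - 1) :
    (univ.filter P).card ≤ D * (2 * m - 1).choose m := by
  have h3 := XMC.card_layer m D hm
  have h4 : univ.filter P ⊆
      univ.filter (fun S : Finset (Fin (2 * m - 1)) => m ≤ S.card + D ∧ S.card ≤ m - 1) := by
    intro S hS
    rw [Finset.mem_filter] at hS ⊢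
    exact ⟨hS.1, hP S hS.2⟩
  exact (Finset.card_le_card h4).trans h3

theorem finrank_Vd_le' {q k : ℕ} :
    Module.finrank (ZMod 2) (Vd q k) ≤
      (univ.filter (fun S : Finset (Fin q) => S.card ≤ k)).card := by
  classical
  have h2 : Vd q k = Submodule.span (ZMod 2)
      ((univ.filter (fun S : Finset (Fin q) => S.card ≤ k)).image mon :
        Set (Pt q → ZMod 2)) := by
    unfold Vd
    congr 1
    ext f
    rw [Finset.coe_image]
    constructor
    · rintro ⟨A, hA, rfl⟩
      exact ⟨A, by simpa using hA, rfl⟩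
    · rintro ⟨A, hA, rfl⟩
      exact ⟨A, by simpa using hA, rfl⟩
  rw [h2]
  exact (finrank_span_finset_le_card _).trans Finset.card_image_le

theorem finrank_Wd {m : ℕ} (hm : 1 ≤ m) (D : ℕ) :
    Module.finrank (ZMod 2) (Wd m 0) ≤
      Module.finrank (ZMod 2) (Wd m D) + D * (2 * m - 1).choose m := by
  have h0 : Wd m 0 = Vd (2 * m - 1) (m - 1) := by
    unfold Wd
    rw [if_pos (by omega), Nat.sub_zero]
  rw [h0]
  by_cases hD : D < m
  · have h1 : Wd m D = Vd (2 * m - 1) (m - 1 - D) := by
      unfold Wd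
      rw [if_pos hD]
    rw [h1]
    have h2 := finrank_Vd_le (q := 2 * m - 1) (j := m - 1 - D) (k := m - 1)
    have h3 := card_layer_aux (D := D) hm
      (fun S : Finset (Fin (2 * m - 1)) => m - 1 - D < S.card ∧ S.card ≤ m - 1)
      (fun S hS => ⟨by omega, hS.2⟩)
    exact h2.trans (Nat.add_le_add_left h3 _)
  · have h2 := finrank_Vd_le' (q := 2 * m - 1) (k := m - 1)
    have h3 := card_layer_aux (D := D) hm
      (fun S : Finset (Fin (2 * m - 1)) => S.card ≤ m - 1) (fun S hS => ⟨by omega, hS⟩)
    exact (h2.trans h3).trans (Nat.le_add_left _ _)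

/-- the cube as a block -/
theorem exists_cube {m : ℕ} (hm : 1 ≤ m) : ∃ B : Blk (ZMod 2) (Pt (2 * m - 1)),
    B.V = Vd (2 * m - 1) ∧ B.W = Wd m ∧ B.S = side m := by
  classical
  have hW0 : Wd m 0 = Vd (2 * m - 1) (m - 1) := by
    unfold Wd
    rw [if_pos (by omega)]
    rfl
  refine ⟨{ V := Vd (2 * m - 1)
            W := Wd m
            S := side m
            V_one := Vd_one _
            V_mono := fun h => Vd_mono h
            V_mul := fun hf hg => Vd_mul hf hg
            W_anti := ?_
            W_mul := ?_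
            lag := fun s z => if hz : z ∈ side m s then (exists_lag hm s z hz).choose else 0
            lag_mem := ?_
            lag_apply := ?_
            inj := ?_ }, rfl, rfl, rfl⟩
  · intro a b hab
    unfold Wd
    split_ifs with h1 h2
    · exact Vd_mono (by omega)
    · omega
    · exact bot_le
    · exact le_rfl
  · intro d D f g hf hg
    unfold Wd at hg ⊢
    by_cases h1 : D + d < m
    · rw [if_pos h1] at hg
      rw [if_pos (by omega)]
      exact Vd_mono (by omega) (Vd_mul hf hg)
    · rw [if_neg h1, Submodule.mem_bot] at hg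
      rw [hg, mul_zero]
      exact Submodule.zero_mem _
  · intro s z
    rw [hW0]
    split_ifs with hz
    · exact (exists_lag hm s z hz).choose_spec.1
    · exact Submodule.zero_mem _
  · intro s z hz z' hz'
    rw [dif_pos hz]
    exact (exists_lag hm s z hz).choose_spec.2 z' hz'
  · intro s f hf h
    rw [hW0] at hf
    exact vd_inj hm s f hf h

end Pool.Agent.helper91.XM
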