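import Pool.Agent.helper91.XM.Stmt

/-!
# MP_bd3c72_lc: XOR of majorities against `F_2`-polynomials: auxiliary definitions
-/

set_option autoImplicit false

open Finset

namespace Pool.Agent.helper91.XM

/-- points of a block -/
abbrev Pt (q : ℕ) : Type := Fin q → ZMod 2

/-- number of ones -/
def wt {q : ℕ} (z : Pt q) : ℕ := (univ.filter fun i => z i = 1).card

/-- the monomial function `∏_{i ∈ A} z_i` -/
def mon {q : ℕ} (A : Finset (Fin q)) : Pt q → ZMod 2 := fun z => ∏ i ∈ A, z i

/-- functions of degree at most `d` -/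
def Vd (q d : ℕ) : Submodule (ZMod 2) (Pt q → ZMod 2) :=
  Submodule.span (ZMod 2) {f | ∃ A : Finset (Fin q), A.card ≤ d ∧ f = mon A}

/-- functions of degree at most `m - 1 - D` on a block of size `2 m - 1` (zero if `D ≥ m`) -/
def Wd (m D : ℕ) : Submodule (ZMod 2) (Pt (2 * m - 1) → ZMod 2) :=
  if D < m then Vd (2 * m - 1) (m - 1 - D) else ⊥

/-- `(-1)^(majority)` on a block of size `2 m - 1` -/
def ms (m : ℕ) (z : Pt (2 * m - 1)) : ℝ := if m ≤ wt z then -1 else 1

/-- the lower and the upper half of a block -/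
def side (m : ℕ) (s : Bool) : Finset (Pt (2 * m - 1)) :=
  if s then univ.filter (fun z => m ≤ wt z) else univ.filter (fun z => wt z < m)

/-- A block: functions of degree at most `d` (`V d`), a decreasing filtration `W D` of the space
`W 0`, and two sets of points such that the functions in `W 0` are determined by, and can be
prescribed arbitrarily on, each of them. -/
structure Blk (F X : Type) [Field F] [Fintype X] [DecidableEq X] where
  /-- functions of degree at most `d` -/
  V : ℕ → Submodule F (X → F)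
  /-- the filtration -/
  W : ℕ → Submodule F (X → F)
  /-- the two sets -/
  S : Bool → Finset X
  V_one : (1 : X → F) ∈ V 0
  V_mono : ∀ {a b : ℕ}, a ≤ b → V a ≤ V b
  V_mul : ∀ {a b : ℕ} {f g : X → F}, f ∈ V a → g ∈ V b → f * g ∈ V (a + b)
  W_anti : ∀ {a b : ℕ}, a ≤ b → W b ≤ W a
  W_mul : ∀ {d D : ℕ} {f g : X → F}, f ∈ V d → g ∈ W (D + d) → f * g ∈ W D
  /-- Lagrange functions -/
  lag : Bool → X → (X → F)
  lag_mem : ∀ s x, lag s x ∈ W 0
  lag_apply : ∀ s x, x ∈ S s → ∀ x' ∈ S s, lag s x x' = if x' = x then 1 else 0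
  inj : ∀ s f, f ∈ W 0 → (∀ x ∈ S s, f x = 0) → f = 0

end Pool.Agent.helper91.XM
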