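import Mathlib

/-!
# XM-A2: the difference of two idempotents

For idempotents `p`, `q` on `L` the endomorphism `dd p q` of `L × L` is an idempotent of rank
`rank p + dim L - rank q`; if `p = q` on `W1` and `q` maps `W2 ≤ W1` into `W1`, then `dd p q` is
`(a, b) ↦ (a, 0)` on `W2 × W2`, and it induces an idempotent on the quotient.
-/

set_option autoImplicit false

namespace Pool.Agent.helper91.XM

open Module LinearMap

variable {F L : Type} [Field F] [AddCommGroup L] [Module F L]

/-- `(a, b) ↦ (q a + (1 - q) b, (1 - q) a + q b)` -/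
def uu (q : Module.End F L) : Module.End F (L × L) :=
  LinearMap.prod (q ∘ₗ LinearMap.fst F L L + (1 - q) ∘ₗ LinearMap.snd F L L)
    ((1 - q) ∘ₗ LinearMap.fst F L L + q ∘ₗ LinearMap.snd F L L)

/-- the difference idempotent -/
def dd (p q : Module.End F L) : Module.End F (L × L) :=
  uu q ∘ₗ LinearMap.prodMap p (1 - q) ∘ₗ uu q

theorem uu_apply (q : Module.End F L) (v : L × L) :
    uu q v = (q v.1 + (v.2 - q v.2), (v.1 - q v.1) + q v.2) := by
  simp [uu]

theorem mul_self_apply {q : Module.End F L} (hq : q * q = q) (a : L) : q (q a) = q a := by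
  have := LinearMap.congr_fun hq a
  simpa using this

theorem uu_sq {q : Module.End F L} (hq : q * q = q) : uu q ∘ₗ uu q = LinearMap.id := by
  refine LinearMap.ext fun v => ?_
  rw [LinearMap.comp_apply, uu_apply, uu_apply, LinearMap.id_apply]
  ext <;> simp only [map_add, map_sub, mul_self_apply hq] <;> abel

theorem dd_idem {p q : Module.End F L} (hp : p * p = p) (hq : q * q = q) :
    dd p q * dd p q = dd p q := by
  refine LinearMap.ext fun v => ?_
  have h : ∀ w, uu q (uu q w) = w := fun w => LinearMap.congr_fun (uu_sq hq) w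
  simp only [dd, Module.End.mul_apply, LinearMap.comp_apply, h]
  congr 1
  ext
  · simp [mul_self_apply hp]
  · simp [mul_self_apply hq]

theorem dd_apply {p q : Module.End F L} (hq : q * q = q) {W1 W2 : Submodule F L}
    (h21 : W2 ≤ W1) (hqW : ∀ a ∈ W2, q a ∈ W1) (hpq : ∀ a ∈ W1, p a = q a) {a b : L}
    (ha : a ∈ W2) (hb : b ∈ W2) : dd p q (a, b) = (a, 0) := by
  have h1 : q a + (b - q b) ∈ W1 := W1.add_mem (hqW a ha) (W1.sub_mem (h21 hb) (hqW b hb))
  simp only [dd, LinearMap.comp_apply, uu_apply, LinearMap.prodMap_apply, hpq _ h1]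
  ext <;> simp only [map_add, map_sub, mul_self_apply hq, LinearMap.sub_apply,
    Module.End.one_apply] <;> abel

theorem dd_comap {p q : Module.End F L} (hq : q * q = q) {W1 W2 : Submodule F L}
    (h21 : W2 ≤ W1) (hqW : ∀ a ∈ W2, q a ∈ W1) (hpq : ∀ a ∈ W1, p a = q a) :
    W2.prod W2 ≤ (W2.prod W2).comap (dd p q) := by
  rintro ⟨a, b⟩ ⟨ha, hb⟩
  rw [Submodule.mem_comap, dd_apply hq h21 hqW hpq ha hb]
  exact ⟨ha, W2.zero_mem⟩

/-- a product of submodules -/
def prodSubEquiv {M N : Type} [AddCommGroup M] [Module F M] [AddCommGroup N] [Module F N]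
    (A : Submodule F M) (B : Submodule F N) : A.prod B ≃ₗ[F] A × B where
  toFun v := (⟨v.1.1, v.2.1⟩, ⟨v.1.2, v.2.2⟩)
  invFun v := ⟨(v.1.1, v.2.1), ⟨v.1.2, v.2.2⟩⟩
  left_inv _ := rfl
  right_inv _ := rfl
  map_add' _ _ := rfl
  map_smul' _ _ := rfl

theorem finrank_prodSub {M N : Type} [AddCommGroup M] [Module F M] [AddCommGroup N] [Module F N]
    [FiniteDimensional F M] [FiniteDimensional F N] (A : Submodule F M) (B : Submodule F N) :
    finrank F (A.prod B) = finrank F A + finrank F B := by
  rw [(prodSubEquiv A B).finrank_eq, Module.finrank_prod]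

theorem finrank_dd [FiniteDimensional F L] {p q : Module.End F L} (hq : q * q = q) :
    finrank F (range (dd p q)) + finrank F (range q) = finrank F (range p) + finrank F L := by
  let e : (L × L) ≃ₗ[F] (L × L) := LinearEquiv.ofInvolutive (uu q)
    (fun w => LinearMap.congr_fun (uu_sq hq) w)
  have h1 : dd p q = (e : (L × L) →ₗ[F] (L × L)) ∘ₗ (LinearMap.prodMap p (1 - q)) ∘ₗ
      (e : (L × L) →ₗ[F] (L × L)) := rfl
  have h2 : finrank F (range (dd p q)) = finrank F (range (LinearMap.prodMap p (1 - q))) := by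
    rw [h1, LinearMap.range_comp, LinearMap.range_comp_of_range_eq_top _ (LinearEquiv.range e)]
    exact LinearEquiv.finrank_map_eq e _
  have hq' : IsIdempotentElem (1 - q) := IsIdempotentElem.one_sub hq
  have h3 : range (1 - q) = ker q := by
    have := LinearMap.IsIdempotentElem.range_eq_ker_one_sub hq'
    rwa [sub_sub_cancel] at this
  rw [h2, LinearMap.range_prodMap, finrank_prodSub, h3]
  have := LinearMap.finrank_range_add_finrank_ker q
  omega

/-- the rank of the idempotent induced on the quotient -/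
theorem finrank_mapQ_dd [FiniteDimensional F L] {p q : Module.End F L} (hp : p * p = p)
    (hq : q * q = q) {W1 W2 : Submodule F L} (h21 : W2 ≤ W1) (hqW : ∀ a ∈ W2, q a ∈ W1)
    (hpq : ∀ a ∈ W1, p a = q a) (h : W2.prod W2 ≤ (W2.prod W2).comap (dd p q)) :
    finrank F (range ((W2.prod W2).mapQ (W2.prod W2) (dd p q) h)) + finrank F W2 +
      finrank F (range q) = finrank F (range p) + finrank F L := by
  have hD := dd_idem hp hq
  have h1 : range ((W2.prod W2).mapQ (W2.prod W2) (dd p q) h) =
      (range (dd p q)).map (W2.prod W2).mkQ := by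
    rw [← LinearMap.range_comp, ← Submodule.mapQ_mkQ (W2.prod W2) (W2.prod W2) (dd p q) (h := h),
      LinearMap.range_comp_of_range_eq_top _ (Submodule.range_mkQ _)]
  have h2 : range (dd p q) ⊓ W2.prod W2 = W2.prod ⊥ := by
    ext ⟨a, b⟩
    constructor
    · rintro ⟨⟨w, hw⟩, ha, hb⟩
      have h3 : dd p q (a, b) = (a, b) := by
        rw [← hw, ← Module.End.mul_apply, hD]
      rw [dd_apply hq h21 hqW hpq ha hb] at h3
      have h4 : b = 0 := (congrArg Prod.snd h3).symm
      exact ⟨ha, h4⟩
    · rintro ⟨ha, hb⟩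
      have hb' : b = 0 := hb
      subst hb'
      refine ⟨⟨(a, 0), dd_apply hq h21 hqW hpq ha W2.zero_mem⟩, ha, W2.zero_mem⟩
  have h3 := LinearMap.finrank_range_add_finrank_ker ((W2.prod W2).mkQ.domRestrict (range (dd p q)))
  rw [LinearMap.range_domRestrict, LinearMap.ker_domRestrict, Submodule.ker_mkQ, ← h1] at h3
  have h4 : finrank F (Submodule.comap (range (dd p q)).subtype (W2.prod W2)) = finrank F W2 := by
    rw [← Submodule.finrank_map_subtype_eq, Submodule.map_comap_subtype, h2, finrank_prodSub]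
    simp
  have h5 := finrank_dd (p := p) hq
  have h6 : finrank F ((W2.prod W2).submoduleOf (range (dd p q))) = finrank F W2 := h4
  omega

theorem mapQ_idem {M : Type} [AddCommGroup M] [Module F M] {D : Module.End F M}
    (hD : D * D = D) (W : Submodule F M) (h : W ≤ W.comap D) :
    (W.mapQ W D h) * (W.mapQ W D h) = W.mapQ W D h := by
  refine LinearMap.ext fun v => ?_
  obtain ⟨w, rfl⟩ := W.mkQ_surjective v
  simp [mul_self_apply hD]

theorem finrank_quot [FiniteDimensional F L] (W2 : Submodule F L) :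
    finrank F ((L × L) ⧸ W2.prod W2) + 2 * finrank F W2 = 2 * finrank F L := by
  have h := Submodule.finrank_quotient_add_finrank (W2.prod W2)
  rw [finrank_prodSub, Module.finrank_prod] at h
  omega

end Pool.Agent.helper91.XM
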