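import Pool.Agent.helper91.XM.Red
import Pool.Agent.helper91.XM.Cube

/-!
# XM-A4: induction over the number of blocks

`abstract_bound` is proved by induction on the number of blocks, each step being the reduction
lemma; `scalar_bound` is the case of `1 × 1` matrices and `cube_bound` the case of the cube.
-/

set_option autoImplicit false

open Finset

namespace Pool.Agent.helper91.XM

variable {F X : Type} [Field F] [Fintype X] [DecidableEq X]

/-- functions of degree at most `d` in each block separately -/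
def sep (B : Blk F X) (k d : ℕ) : Submodule F ((Fin k → X) → F) where
  carrier := {f | ∀ (j : Fin k) (y : Fin k → X), (fun x => f (Function.update y j x)) ∈ B.V d}
  zero_mem' := fun _ _ => (B.V d).zero_mem
  add_mem' := fun hf hg j y => (B.V d).add_mem (hf j y) (hg j y)
  smul_mem' := fun c _ hf j y => (B.V d).smul_mem c (hf j y)

/-- the sign of a point -/
def eps (B : Blk F X) (x : X) : ℤ := (if x ∈ B.S false then 1 else 0) - if x ∈ B.S true then 1 else 0

/-- the class of functions of given degree in each block -/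
def sepCls (B : Blk F X) (k : ℕ) : Cls F (Fin k → X) where
  V := sep B k
  V_one := fun _ _ => B.V_one
  V_mono := fun h _ hf j y => B.V_mono h (hf j y)
  V_mul := fun hf hg j y => B.V_mul (hf j y) (hg j y)

theorem sum_eps_mul (B : Blk F X) (g : X → ℤ) :
    ∑ x, eps B x * g x = ∑ x ∈ B.S false, g x - ∑ x ∈ B.S true, g x := by
  have h : ∀ x, eps B x * g x =
      (if x ∈ B.S false then g x else 0) - (if x ∈ B.S true then g x else 0) := by
    intro x
    unfold eps
    rw [sub_mul, ite_mul, ite_mul, one_mul, zero_mul]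
  simp_rw [h]
  rw [Finset.sum_sub_distrib, Finset.sum_ite_mem, Finset.sum_ite_mem, Finset.univ_inter,
    Finset.univ_inter]

omit [DecidableEq X] in
theorem sum_fin_succ {k : ℕ} (g : (Fin (k + 1) → X) → ℤ) :
    ∑ y : Fin (k + 1) → X, g y = ∑ x : X, ∑ y : Fin k → X, g (Fin.cons x y) := by
  rw [← Fintype.sum_prod_type' (fun (x : X) (y : Fin k → X) => g (Fin.cons x y))]
  exact (Fintype.sum_equiv (Fin.consEquiv (fun _ : Fin (k + 1) => X)) _ _ (fun _ => rfl)).symm

theorem abstract_bound (B : Blk F X) (k : ℕ) : ∀ (d : ℕ) (H : Type) [AddCommGroup H] [Module F H]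
    [FiniteDimensional F H] (P : (Fin k → X) → Module.End F H) (_ : ∀ y, P y * P y = P y)
    (_ : ∀ (φ : Module.Dual F H) (h : H), (fun y => φ (P y h)) ∈ sep B k d),
    |∑ y : Fin k → X, (∏ j, eps B (y j)) *
        (2 * Module.finrank F (LinearMap.range (P y)) - Module.finrank F H : ℤ)| ≤
      Module.finrank F H * ∏ i ∈ range k,
        (2 * ((Module.finrank F (B.W 0) : ℤ) - Module.finrank F (B.W (2 * 3 ^ i * d)))) := by
  induction k with
  | zero =>
    intro d H _ _ _ P _ _
    rw [Fintype.sum_unique, Finset.range_zero, Finset.prod_empty, Finset.univ_eq_empty,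
      Finset.prod_empty, one_mul, mul_one, abs_le]
    have h := Submodule.finrank_le (LinearMap.range (P default))
    constructor <;> omega
  | succ k ih =>
    intro d H _ _ _ P hP hc
    have hx : ∀ (y : Fin k → X) (φ : Module.Dual F H) (h : H),
        (fun x => φ (P (Fin.cons x y) h)) ∈ B.V d := by
      intro y φ h
      rcases isEmpty_or_nonempty X with hX | ⟨⟨x0⟩⟩
      · have : (fun x => φ (P (Fin.cons x y) h)) = 0 := funext fun x => (hX.false x).elim
        rw [this]
        exact Submodule.zero_mem _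
      · have := hc φ h 0 (Fin.cons x0 y)
        simpa only [Fin.update_cons_zero] using this
    have hy : ∀ (x : X) (φ : Module.Dual F H) (h : H),
        (fun y : Fin k → X => φ (P (Fin.cons x y) h)) ∈ (sepCls B k).V d := by
      intro x φ h j y
      have := hc φ h j.succ (Fin.cons x y)
      simpa only [← Fin.cons_update] using this
    obtain ⟨Q, i1, i2, i3, E, hE, hEc, hQ, hEr⟩ := reduction B (sepCls B k)
      (fun x y => P (Fin.cons x y)) (fun x y => hP _) hx hy
    have hih := ih (3 * d) Q E hE hEc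
    have hsum : ∑ y : Fin (k + 1) → X, (∏ j, eps B (y j)) *
          (2 * Module.finrank F (LinearMap.range (P y)) - Module.finrank F H : ℤ) =
        ∑ y : Fin k → X, (∏ j, eps B (y j)) *
          (2 * Module.finrank F (LinearMap.range (E y)) - Module.finrank F Q : ℤ) := by
      rw [sum_fin_succ, Finset.sum_comm]
      refine Finset.sum_congr rfl fun y _ => ?_
      rw [hEr y, ← sum_eps_mul, Finset.mul_sum]
      refine Finset.sum_congr rfl fun x _ => ?_
      rw [Fin.prod_univ_succ]
      simp only [Fin.cons_zero, Fin.cons_succ]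
      ring
    rw [hsum]
    refine hih.trans (le_of_eq ?_)
    rw [Finset.prod_range_succ']
    have hdeg : ∀ i : ℕ, 2 * 3 ^ (i + 1) * d = 2 * 3 ^ i * (3 * d) := fun i => by ring
    have hQ' : (Module.finrank F Q : ℤ) = Module.finrank F H *
        (2 * ((Module.finrank F (B.W 0) : ℤ) - Module.finrank F (B.W (2 * 3 ^ 0 * d)))) := by
      rw [pow_zero, mul_one]
      zify at hQ
      linarith
    have hprod : ∏ i ∈ range k, (2 * ((Module.finrank F (B.W 0) : ℤ) -
          Module.finrank F (B.W (2 * 3 ^ (i + 1) * d)))) =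
        ∏ i ∈ range k, (2 * ((Module.finrank F (B.W 0) : ℤ) -
          Module.finrank F (B.W (2 * 3 ^ i * (3 * d))))) :=
      Finset.prod_congr rfl fun i _ => by rw [hdeg i]
    rw [hprod, hQ']
    ring

theorem scalar_bound [DecidableEq F] (B : Blk F X) (k d : ℕ) (p : (Fin k → X) → F) (h01 : ∀ y, p y = 0 ∨ p y = 1)
    (hp : p ∈ sep B k d) :
    |∑ y : Fin k → X, (∏ j, eps B (y j)) * (if p y = 0 then 1 else -1 : ℤ)| ≤
      ∏ i ∈ range k,
        (2 * ((Module.finrank F (B.W 0) : ℤ) - Module.finrank F (B.W (2 * 3 ^ i * d)))) := by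
  have h := abstract_bound B k d F (fun y => p y • (1 : Module.End F F)) (by
    intro y
    rcases h01 y with h | h <;> simp [h]) (by
    intro φ h
    have : (fun y => φ ((p y • (1 : Module.End F F)) h)) = φ h • p := by
      funext y
      rw [LinearMap.smul_apply, map_smul, Module.End.one_apply, Pi.smul_apply, smul_eq_mul,
        smul_eq_mul, mul_comm]
    rw [this]
    exact Submodule.smul_mem _ _ hp)
  rw [Module.finrank_self, Nat.cast_one, one_mul] at h
  have e : ∀ y : Fin k → X, (∏ j, eps B (y j)) *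
      (2 * Module.finrank F (LinearMap.range (p y • (1 : Module.End F F))) - 1 : ℤ) =
      -((∏ j, eps B (y j)) * (if p y = 0 then 1 else -1 : ℤ)) := by
    intro y
    rcases h01 y with h | h
    · rw [h, zero_smul, LinearMap.range_zero, finrank_bot, if_pos rfl]
      push_cast
      ring
    · have h1 : p y ≠ 0 := by rw [h]; exact one_ne_zero
      rw [if_neg h1, h, one_smul]
      have h2 : LinearMap.range (1 : Module.End F F) = ⊤ := LinearMap.range_id
      rw [h2, finrank_top, Module.finrank_self]
      push_cast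
      ring
  simp only [e, Finset.sum_neg_distrib, abs_neg] at h
  exact h

theorem cube_bound {m : ℕ} (hm : 1 ≤ m) (k d : ℕ) (p : (Fin k → Pt (2 * m - 1)) → ZMod 2)
    (hp : ∀ (j : Fin k) (y : Fin k → Pt (2 * m - 1)),
      (fun z => p (Function.update y j z)) ∈ Vd (2 * m - 1) d) :
    |∑ y : Fin k → Pt (2 * m - 1), (∏ j, ms m (y j)) * sgn (p y)| ≤
      (4 * d * ((2 * m - 1).choose m : ℝ)) ^ k * 3 ^ (k * (k - 1) / 2) := by
  obtain ⟨B, hV, hW, hS⟩ := exists_cube hm
  have h01 : ∀ y, p y = 0 ∨ p y = 1 := by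
    intro y
    have : ∀ a : ZMod 2, a = 0 ∨ a = 1 := by decide
    exact this _
  have hsep : p ∈ sep B k d := by
    intro j y
    rw [hV]
    exact hp j y
  have h := scalar_bound B k d p h01 hsep
  have heps : ∀ z : Pt (2 * m - 1), ms m z = (eps B z : ℝ) := by
    intro z
    unfold ms eps
    rw [hS]
    by_cases hz : m ≤ wt z
    · have h1 : ¬ wt z < m := by omega
      simp only [side, hz, if_true, Bool.false_eq_true, if_false, Finset.mem_filter,
        Finset.mem_univ, true_and]
      rw [if_neg h1]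
      norm_num
    · have h1 : wt z < m := by omega
      simp [side, hz]
  have hsgn : ∀ y, sgn (p y) = ((if p y = 0 then 1 else -1 : ℤ) : ℝ) := by
    intro y
    unfold sgn
    split_ifs <;> simp
  have hcast : ∑ y : Fin k → Pt (2 * m - 1), (∏ j, ms m (y j)) * sgn (p y) =
      ((∑ y : Fin k → Pt (2 * m - 1), (∏ j, eps B (y j)) * (if p y = 0 then 1 else -1 : ℤ) : ℤ) :
        ℝ) := by
    rw [Int.cast_sum]
    refine Finset.sum_congr rfl fun y _ => ?_
    rw [Int.cast_mul, Int.cast_prod, hsgn y]
    congr 1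
    exact Finset.prod_congr rfl fun j _ => heps _
  rw [hcast, ← Int.cast_abs]
  have h2 : ∏ i ∈ range k, (2 * ((Module.finrank (ZMod 2) (B.W 0) : ℤ) -
      Module.finrank (ZMod 2) (B.W (2 * 3 ^ i * d)))) ≤
      ∏ i ∈ range k, ((4 * d * ((2 * m - 1).choose m : ℤ)) * 3 ^ i) := by
    refine Finset.prod_le_prod (fun i _ => ?_) (fun i _ => ?_)
    · have h3 : Module.finrank (ZMod 2) (B.W (2 * 3 ^ i * d)) ≤
          Module.finrank (ZMod 2) (B.W 0) := Submodule.finrank_mono (B.W_anti (Nat.zero_le _))
      have h4 : (Module.finrank (ZMod 2) (B.W (2 * 3 ^ i * d)) : ℤ) ≤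
          Module.finrank (ZMod 2) (B.W 0) := by exact_mod_cast h3
      linarith
    · have h3 := finrank_Wd hm (2 * 3 ^ i * d)
      rw [hW]
      have h4 : (Module.finrank (ZMod 2) (Wd m 0) : ℤ) ≤
          Module.finrank (ZMod 2) (Wd m (2 * 3 ^ i * d)) +
            (2 * 3 ^ i * d) * ((2 * m - 1).choose m : ℤ) := by exact_mod_cast h3
      nlinarith
  have h5 : ∏ i ∈ range k, ((4 * d * ((2 * m - 1).choose m : ℤ)) * 3 ^ i) =
      (4 * d * ((2 * m - 1).choose m : ℤ)) ^ k * 3 ^ (k * (k - 1) / 2) := by
    rw [Finset.prod_mul_distrib, Finset.prod_const, Finset.card_range,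
      Finset.prod_pow_eq_pow_sum, Finset.sum_range_id]
  rw [h5] at h2
  have h6 := h.trans h2
  calc ((|∑ y : Fin k → Pt (2 * m - 1), (∏ j, eps B (y j)) *
        (if p y = 0 then 1 else -1 : ℤ)| : ℤ) : ℝ)
      ≤ (((4 * d * ((2 * m - 1).choose m : ℤ)) ^ k * 3 ^ (k * (k - 1) / 2) : ℤ) : ℝ) := by
        exact_mod_cast h6
    _ = _ := by push_cast; ring

end Pool.Agent.helper91.XM
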