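import Pool.Agent.helper91.XM.Cube

/-!
# XM-E: from the blocks to `F_2^n`
-/

set_option autoImplicit false

open Finset

namespace Pool.Agent.helper91.XM

theorem pad_coord_mem {q : ℕ} (j : Fin q) : (fun z : Pt q => z j) ∈ Vd q 1 := by
  have h : (fun z : Pt q => z j) = mon {j} := by
    funext z
    simp [mon]
  rw [h]
  exact mon_mem (by simp)

theorem pad_const_mem {q : ℕ} (c : ZMod 2) (d : ℕ) : (fun _ : Pt q => c) ∈ Vd q d := by
  have h : (fun _ : Pt q => c) = c • (1 : Pt q → ZMod 2) := by
    funext z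
    simp
  rw [h]
  exact Submodule.smul_mem _ _ (Vd_mono (Nat.zero_le d) (Vd_one q))

theorem pad_pow_mem {q a : ℕ} {f : Pt q → ZMod 2} (hf : f ∈ Vd q a) (k : ℕ) :
    f ^ k ∈ Vd q (k * a) := by
  induction k with
  | zero => rw [pow_zero, Nat.zero_mul]; exact Vd_one q
  | succ k ih =>
    rw [pow_succ, Nat.succ_mul]
    exact Vd_mul ih hf

theorem pad_prod_mem {ι : Type} {q : ℕ} (s : Finset ι) (f : ι → Pt q → ZMod 2) (a : ι → ℕ)
    (h : ∀ i ∈ s, f i ∈ Vd q (a i)) : (∏ i ∈ s, f i) ∈ Vd q (∑ i ∈ s, a i) := by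
  classical
  induction s using Finset.induction_on with
  | empty => rw [Finset.prod_empty, Finset.sum_empty]; exact Vd_one q
  | insert i s his ih =>
    rw [Finset.prod_insert his, Finset.sum_insert his]
    exact Vd_mul (h i (Finset.mem_insert_self i s))
      (ih fun j hj => h j (Finset.mem_insert_of_mem hj))

/-- substituting for each variable a coordinate of `z` or a constant -/
theorem eval_mem_Vd {n q d : ℕ} (p : MvPolynomial (Fin n) (ZMod 2)) (hp : p.totalDegree ≤ d)
    (τ : Fin n → Fin q ⊕ ZMod 2) :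
    (fun z : Pt q => MvPolynomial.eval (fun i => Sum.elim z id (τ i)) p) ∈ Vd q d := by
  classical
  have h1 : (fun z : Pt q => MvPolynomial.eval (fun i => Sum.elim z id (τ i)) p) =
      ∑ e ∈ p.support, p.coeff e • ∏ i ∈ e.support,
        (fun z : Pt q => (Sum.elim z id (τ i) : ZMod 2)) ^ (e i) := by
    funext z
    rw [MvPolynomial.eval_eq, Finset.sum_apply]
    refine Finset.sum_congr rfl fun e _ => ?_
    rw [Pi.smul_apply, smul_eq_mul, Finset.prod_apply]
    rfl
  rw [h1]
  refine Submodule.sum_mem _ fun e he => Submodule.smul_mem _ _ ?_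
  have h2 : ∑ i ∈ e.support, e i ≤ d := by
    have := MvPolynomial.le_totalDegree he
    exact this.trans hp
  refine Vd_mono h2 (pad_prod_mem _ _ _ fun i _ => ?_)
  have h3 : (fun z : Pt q => (Sum.elim z id (τ i) : ZMod 2)) ∈ Vd q 1 := by
    cases h : τ i with
    | inl j => exact pad_coord_mem j
    | inr c => exact pad_const_mem c 1
  have h4 := pad_pow_mem h3 (e i)
  rwa [Nat.mul_one] at h4

theorem sgn_add (a b : ZMod 2) : sgn (a + b) = sgn a * sgn b := by
  have h : ∀ a : ZMod 2, a = 0 ∨ a = 1 := by decide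
  have h11 : (1 + 1 : ZMod 2) = 0 := by decide
  rcases h a with rfl | rfl <;> rcases h b with rfl | rfl <;> simp [sgn, h11]

theorem sgn_sum {ι : Type} (s : Finset ι) (f : ι → ZMod 2) :
    sgn (∑ i ∈ s, f i) = ∏ i ∈ s, sgn (f i) := by
  classical
  induction s using Finset.induction_on with
  | empty => simp [sgn]
  | insert i s his ih => rw [Finset.sum_insert his, Finset.prod_insert his, sgn_add, ih]

theorem pad_half_le {k n : ℕ} : k * (2 * half k n - 1) ≤ n := by
  unfold half
  have h := Nat.div_mul_le_self (n + k) (2 * k)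
  rw [Nat.mul_sub, Nat.mul_one]
  have h2 : k * (2 * ((n + k) / (2 * k))) = (n + k) / (2 * k) * (2 * k) := by ring
  omega

section glue

variable {k n q : ℕ}

/-- the position of coordinate `i` of block `j` -/
def padPos (h : k * q ≤ n) (a : Fin k × Fin q) : Fin n :=
  ⟨k * a.2 + a.1, by
    have h1 := a.1.2
    have h2 := a.2.2
    have h3 : k * (a.2 : ℕ) + k ≤ k * q := by
      rw [← Nat.mul_succ]
      exact Nat.mul_le_mul_left k h2
    omega⟩

theorem padPos_inj (h : k * q ≤ n) : Function.Injective (padPos h) := by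
  rintro ⟨a, b⟩ ⟨a', b'⟩ hab
  have h1 : k * (b : ℕ) + a = k * (b' : ℕ) + a' := by
    have := congrArg Fin.val hab
    exact this
  have hb : (b : ℕ) = b' := by
    have e1 : (k * (b : ℕ) + a) / k = b := by
      rw [Nat.mul_add_div (lt_of_le_of_lt (Nat.zero_le _) a.2), Nat.div_eq_of_lt a.2, Nat.add_zero]
    have e2 : (k * (b' : ℕ) + a') / k = b' := by
      rw [Nat.mul_add_div (lt_of_le_of_lt (Nat.zero_le _) a'.2), Nat.div_eq_of_lt a'.2,
        Nat.add_zero]
    rw [← e1, ← e2, h1]
  have ha : (a : ℕ) = a' := by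
    rw [hb] at h1
    omega
  exact Prod.ext (Fin.ext ha) (Fin.ext hb)

/-- positions: block positions and the rest -/
noncomputable def padSigma (h : k * q ≤ n) :
    (Fin k × Fin q) ⊕ ↥((Set.range (padPos h))ᶜ) ≃ Fin n :=
  ((Equiv.ofInjective _ (padPos_inj h)).sumCongr (Equiv.refl _)).trans
    (Equiv.Set.sumCompl (Set.range (padPos h)))

theorem padSigma_inl (h : k * q ≤ n) (a : Fin k × Fin q) :
    padSigma h (Sum.inl a) = padPos h a := rfl

/-- splitting a point of `F_2^n` into blocks and the rest -/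
noncomputable def padEquiv (h : k * q ≤ n) :
    (Fin k → Pt q) × (↥((Set.range (padPos h))ᶜ) → ZMod 2) ≃ (Fin n → ZMod 2) where
  toFun y := fun i => Sum.elim (fun a : Fin k × Fin q => y.1 a.1 a.2) y.2 ((padSigma h).symm i)
  invFun x := (fun j i => x (padSigma h (Sum.inl (j, i))), fun r => x (padSigma h (Sum.inr r)))
  left_inv y := by
    refine Prod.ext ?_ ?_
    · funext j i
      simp
    · funext r
      simp
  right_inv x := by
    funext i
    obtain ⟨s, rfl⟩ := (padSigma h).surjective i
    show Sum.elim (fun a : Fin k × Fin q => x (padSigma h (Sum.inl (a.1, a.2))))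
      (fun r => x (padSigma h (Sum.inr r))) ((padSigma h).symm (padSigma h s)) = x (padSigma h s)
    rw [Equiv.symm_apply_apply]
    cases s <;> rfl

theorem padEquiv_apply_pos (h : k * q ≤ n)
    (y : (Fin k → Pt q) × (↥((Set.range (padPos h))ᶜ) → ZMod 2)) (a : Fin k × Fin q) :
    padEquiv h y (padPos h a) = y.1 a.1 a.2 := by
  show Sum.elim (fun a : Fin k × Fin q => y.1 a.1 a.2) y.2 ((padSigma h).symm (padPos h a)) = _
  rw [← padSigma_inl, Equiv.symm_apply_apply]
  rfl

theorem card_padRest (h : k * q ≤ n) :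
    Fintype.card (↥((Set.range (padPos h))ᶜ) → ZMod 2) = 2 ^ (n - k * q) := by
  classical
  have h1 : k * q + Fintype.card ↥((Set.range (padPos h))ᶜ) = n := by
    have := Fintype.card_congr (padSigma h)
    rw [Fintype.card_sum, Fintype.card_prod, Fintype.card_fin, Fintype.card_fin,
      Fintype.card_fin] at this
    exact this
  rw [Fintype.card_fun, ZMod.card]
  congr 1
  omega

end glue

theorem cor_le {k n d : ℕ} (hk : 1 ≤ k) (hn : k ≤ n) (M : ℝ)
    (h : ∀ P : (Fin k → Pt (2 * half k n - 1)) → ZMod 2,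
      (∀ (j : Fin k) (y : Fin k → Pt (2 * half k n - 1)),
        (fun z => P (Function.update y j z)) ∈ Vd (2 * half k n - 1) d) →
      |∑ y : Fin k → Pt (2 * half k n - 1), (∏ j, ms (half k n) (y j)) * sgn (P y)| ≤ M)
    (p : MvPolynomial (Fin n) (ZMod 2)) (hp : p.totalDegree ≤ d) :
    cor (xorMaj k n) p ≤ M / 2 ^ (k * (2 * half k n - 1)) := by
  classical
  set q := 2 * half k n - 1 with hq
  have hle : k * q ≤ n := pad_half_le
  -- the sign of the function
  have hsgn : ∀ y, sgn (xorMaj k n (padEquiv hle y)) = ∏ j, ms (half k n) (y.1 j) := by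
    intro y
    unfold xorMaj
    rw [sgn_sum, ← Fin.prod_univ_eq_prod_range
      (fun j => sgn (if half k n ≤ ones k n (padEquiv hle y) j then 1 else 0)) k]
    refine Finset.prod_congr rfl fun j _ => ?_
    have hones : ones k n (padEquiv hle y) j = wt (y.1 j) := by
      unfold ones wt
      rw [← hq]
      refine Finset.card_bij' (fun i hi => (⟨i, Finset.mem_range.mp (Finset.mem_filter.mp hi).1⟩ : Fin q))
        (fun i _ => (i : ℕ)) ?_ ?_ (fun _ _ => rfl) (fun _ _ => rfl)
      · intro i hi
        have hi1 := Finset.mem_range.mp (Finset.mem_filter.mp hi).1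
        have hi2 := (Finset.mem_filter.mp hi).2
        refine Finset.mem_filter.mpr ⟨Finset.mem_univ _, ?_⟩
        have h5 := padEquiv_apply_pos hle y (j, ⟨i, hi1⟩)
        have h6 : bit (padEquiv hle y) (k * i + j) = padEquiv hle y (padPos hle (j, ⟨i, hi1⟩)) := by
          unfold bit
          exact dif_pos (padPos hle (j, ⟨i, hi1⟩)).2
        exact (h5.symm.trans h6.symm).trans hi2
      · intro i hi
        have hi2 := (Finset.mem_filter.mp hi).2
        refine Finset.mem_filter.mpr ⟨Finset.mem_range.mpr i.2, ?_⟩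
        have h5 := padEquiv_apply_pos hle y (j, i)
        have h6 : bit (padEquiv hle y) (k * i + j) = padEquiv hle y (padPos hle (j, i)) := by
          unfold bit
          exact dif_pos (padPos hle (j, i)).2
        exact (h6.trans h5).trans hi2
    rw [hones]
    unfold ms
    split_ifs <;> simp [sgn]
  -- splitting the sum
  have hsum : ∑ x : Fin n → ZMod 2, sgn (xorMaj k n x + MvPolynomial.eval x p) =
      ∑ r : ↥((Set.range (padPos hle))ᶜ) → ZMod 2, ∑ y : Fin k → Pt q,
        (∏ j, ms (half k n) (y j)) * sgn (MvPolynomial.eval (padEquiv hle (y, r)) p) := by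
    rw [← Equiv.sum_comp (padEquiv hle), Fintype.sum_prod_type_right]
    refine Finset.sum_congr rfl fun r _ => Finset.sum_congr rfl fun y _ => ?_
    rw [sgn_add, hsgn]
  have hr : ∀ r : ↥((Set.range (padPos hle))ᶜ) → ZMod 2, |∑ y : Fin k → Pt q,
      (∏ j, ms (half k n) (y j)) * sgn (MvPolynomial.eval (padEquiv hle (y, r)) p)| ≤ M := by
    intro r
    refine h (fun y => MvPolynomial.eval (padEquiv hle (y, r)) p) fun j y => ?_
    have h7 := eval_mem_Vd (q := q) p hp (fun i => Sum.elim
      (fun a : Fin k × Fin q => if a.1 = j then Sum.inl a.2 else Sum.inr (y a.1 a.2))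
      (fun s => Sum.inr (r s)) ((padSigma hle).symm i))
    have h8 : (fun z : Pt q => MvPolynomial.eval (fun i => Sum.elim z id (Sum.elim
        (fun a : Fin k × Fin q => if a.1 = j then Sum.inl a.2 else Sum.inr (y a.1 a.2))
        (fun s => Sum.inr (r s)) ((padSigma hle).symm i))) p) =
        fun z => MvPolynomial.eval (padEquiv hle (Function.update y j z, r)) p := by
      funext z
      congr 2
      funext i
      show _ = Sum.elim (fun a : Fin k × Fin q => Function.update y j z a.1 a.2) r
        ((padSigma hle).symm i)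
      cases (padSigma hle).symm i with
      | inl a =>
        rw [Sum.elim_inl, Sum.elim_inl]
        split_ifs with hj
        · rw [Sum.elim_inl, hj, Function.update_self]
        · rw [Sum.elim_inr, Function.update_of_ne hj]
          rfl
      | inr s => rfl
    rw [← h8]
    exact h7
  unfold cor
  rw [hsum]
  have h9 : |∑ r : ↥((Set.range (padPos hle))ᶜ) → ZMod 2, ∑ y : Fin k → Pt q,
      (∏ j, ms (half k n) (y j)) * sgn (MvPolynomial.eval (padEquiv hle (y, r)) p)| ≤
      2 ^ (n - k * q) * M := by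
    refine (Finset.abs_sum_le_sum_abs _ _).trans ?_
    refine (Finset.sum_le_sum fun r _ => hr r).trans ?_
    rw [Finset.sum_const, Finset.card_univ, card_padRest hle, nsmul_eq_mul]
    push_cast
    exact le_rfl
  have h10 : (2 : ℝ) ^ n = 2 ^ (n - k * q) * 2 ^ (k * q) := by
    rw [← pow_add]
    congr 1
    omega
  have h11 : (0 : ℝ) < 2 ^ (n - k * q) := by positivity
  have h12 : (0 : ℝ) < 2 ^ (k * q) := by positivity
  rw [h10, div_le_div_iff₀ (by positivity) h12]
  calc _ ≤ (2 ^ (n - k * q) * M) * 2 ^ (k * q) := mul_le_mul_of_nonneg_right h9 h12.le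
    _ = M * (2 ^ (n - k * q) * 2 ^ (k * q)) := by ring

end Pool.Agent.helper91.XM
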