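import Pool.Agent.helper91.XM.Ind
import Pool.Agent.helper91.XM.Pad
import Pool.Agent.helper91.XM.Asy

/-!
# XM: the correlation bounds
-/

set_option autoImplicit false

open Finset

namespace Pool.Agent.helper91.XM

theorem abs_sgn (a : ZMod 2) : |sgn a| = 1 := by
  unfold sgn
  split_ifs <;> simp

theorem cor_le_one {n : ℕ} (f : (Fin n → ZMod 2) → ZMod 2) (p : MvPolynomial (Fin n) (ZMod 2)) :
    cor f p ≤ 1 := by
  unfold cor
  rw [div_le_one (by positivity)]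
  refine (Finset.abs_sum_le_sum_abs _ _).trans ?_
  simp [abs_sgn]

theorem cor_nonneg {n : ℕ} (f : (Fin n → ZMod 2) → ZMod 2) (p : MvPolynomial (Fin n) (ZMod 2)) :
    0 ≤ cor f p := by
  unfold cor
  positivity

/-- XOR of `k` majorities against degree `d` -/
theorem main_bound {k : ℕ} (hk : 1 ≤ k) : ∃ C : ℝ, 0 ≤ C ∧ ∀ n d : ℕ, 1 ≤ n → 1 ≤ d →
    ∀ p : MvPolynomial (Fin n) (ZMod 2), p.totalDegree ≤ d →
      cor (xorMaj k n) p ≤ C * (d / Real.sqrt n) ^ k := by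
  let C : ℝ := (4 * Real.sqrt k) ^ k * 3 ^ (k * (k - 1) / 2)
  refine ⟨max C (Real.sqrt k ^ k), by positivity, fun n d hn hd p hp => ?_⟩
  have hd' : (1 : ℝ) ≤ d := by exact_mod_cast hd
  have hn' : (1 : ℝ) ≤ n := by exact_mod_cast hn
  have hsn : 0 < Real.sqrt n := Real.sqrt_pos.2 (by linarith)
  have hnn : 0 ≤ (d / Real.sqrt n) ^ k := by positivity
  rcases le_or_gt k n with h | h
  · have hhalf : 1 ≤ half k n := one_le_half hk h
    have h1 := cor_le hk h _ (fun P hP => cube_bound hhalf k d P hP) p hp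
    have h2 : _ ≤ C * (d / Real.sqrt n) ^ k := (quant_sharp hk h (d := d)).trans_eq (by
      have : (4 * Real.sqrt k * d / Real.sqrt n) = (4 * Real.sqrt k) * (d / Real.sqrt n) := by ring
      rw [this, mul_pow]
      ring)
    refine h1.trans (h2.trans ?_)
    exact mul_le_mul_of_nonneg_right (le_max_left _ _) hnn
  · refine (cor_le_one _ _).trans ?_
    have hkn : (n : ℝ) ≤ k := by exact_mod_cast h.le
    have h1 : 1 ≤ Real.sqrt k * (d / Real.sqrt n) := by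
      have h2 : Real.sqrt n ≤ Real.sqrt k := Real.sqrt_le_sqrt hkn
      rw [← mul_div_assoc, le_div_iff₀ hsn, one_mul]
      nlinarith [Real.sqrt_nonneg (k : ℝ)]
    calc (1 : ℝ) ≤ (Real.sqrt k * (d / Real.sqrt n)) ^ k := one_le_pow₀ h1
      _ = Real.sqrt k ^ k * (d / Real.sqrt n) ^ k := mul_pow _ _ _
      _ ≤ _ := mul_le_mul_of_nonneg_right (le_max_right _ _) hnn

/-- XOR of `k` majorities against degree `d`, explicit -/
theorem main_explicit {k n d : ℕ} (hk : 1 ≤ k) (hn : k ≤ n)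
    (p : MvPolynomial (Fin n) (ZMod 2)) (hp : p.totalDegree ≤ d) :
    cor (xorMaj k n) p ≤
      (4 * Real.sqrt k * d / Real.sqrt n) ^ k * 3 ^ (k * (k - 1) / 2) := by
  have hhalf : 1 ≤ half k n := one_le_half hk hn
  exact (cor_le hk hn _ (fun P hP => cube_bound hhalf k d P hP) p hp).trans (quant_sharp hk hn)

/-- the asymptotic form -/
theorem main_asy {k : ℕ} (hk : 1 ≤ k) (c δ : ℝ) (hδ : 0 ≤ δ) (h : c < k * (1 / 2 - δ)) :
    ∃ N : ℕ, ∀ n : ℕ, N ≤ n → ∀ p : MvPolynomial (Fin n) (ZMod 2),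
      (p.totalDegree : ℝ) ≤ max (Real.logb 2 n) ((n : ℝ) ^ δ) →
      cor (xorMaj k n) p ≤ (n : ℝ) ^ (-c) := by
  obtain ⟨C, hC0, hC⟩ := main_bound hk
  obtain ⟨N, hN2, hN⟩ := evt2 k hk C c δ hC0 hδ h
  refine ⟨N, fun n hn p hp => ?_⟩
  have hn' : (2 : ℝ) ≤ n := by exact_mod_cast hN2.trans hn
  have hlog : (1 : ℝ) ≤ max (Real.logb 2 n) ((n : ℝ) ^ δ) := by
    refine le_max_of_le_left ?_
    rw [Real.le_logb_iff_rpow_le (by norm_num) (by linarith)]
    simpa using hn'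
  have hfl : 1 ≤ ⌊max (Real.logb 2 n) ((n : ℝ) ^ δ)⌋₊ := Nat.le_floor (by simpa using hlog)
  have hpd : p.totalDegree ≤ ⌊max (Real.logb 2 n) ((n : ℝ) ^ δ)⌋₊ := Nat.le_floor hp
  have h1 := hC n _ (by omega) hfl p hpd
  refine h1.trans (le_trans ?_ (hN n hn))
  refine mul_le_mul_of_nonneg_left ?_ hC0
  refine pow_le_pow_left₀ (by positivity) ?_ _
  refine div_le_div_of_nonneg_right ?_ (Real.sqrt_nonneg _)
  exact Nat.floor_le (by linarith)

end Pool.Agent.helper91.XM
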