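import Pool.Agent.helper91.XM.Defs

/-!
# XM-D: numerics

* `choose_sq`: `choose (2m-1) m ≤ 2^(2m-1) / √(2m-1)`, squared.
* `quant_explicit`, `quant`: the bound for the XOR of `k` majorities in terms of `n`.
-/

set_option autoImplicit false

open Finset

namespace Pool.Agent.helper91.XM

theorem centralBinom_sq (m : ℕ) : (Nat.centralBinom m) ^ 2 * (2 * m + 1) ≤ 16 ^ m := by
  induction m with
  | zero => simp
  | succ m ih =>
    have h := Nat.succ_mul_centralBinom_succ m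
    have h1 : (m + 1) ^ 2 * ((Nat.centralBinom (m + 1)) ^ 2 * (2 * (m + 1) + 1)) ≤
        (m + 1) ^ 2 * 16 ^ (m + 1) := by
      calc (m + 1) ^ 2 * ((Nat.centralBinom (m + 1)) ^ 2 * (2 * (m + 1) + 1))
          = ((m + 1) * Nat.centralBinom (m + 1)) ^ 2 * (2 * m + 3) := by ring
        _ = (2 * (2 * m + 1) * Nat.centralBinom m) ^ 2 * (2 * m + 3) := by rw [h]
        _ = 4 * ((2 * m + 1) * (2 * m + 3)) * ((Nat.centralBinom m) ^ 2 * (2 * m + 1)) := by ring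
        _ ≤ 4 * (4 * (m + 1) ^ 2) * 16 ^ m := by
            refine Nat.mul_le_mul ?_ ih
            nlinarith
        _ = (m + 1) ^ 2 * 16 ^ (m + 1) := by ring
    exact Nat.le_of_mul_le_mul_left h1 (by positivity)

theorem two_mul_choose {m : ℕ} (hm : 1 ≤ m) : 2 * (2 * m - 1).choose m = Nat.centralBinom m := by
  obtain ⟨l, rfl⟩ : ∃ l, m = l + 1 := ⟨m - 1, by omega⟩
  have e : 2 * (l + 1) - 1 = 2 * l + 1 := by omega
  rw [e, Nat.centralBinom_eq_two_mul_choose, show 2 * (l + 1) = 2 * l + 1 + 1 by ring,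
    Nat.choose_succ_succ (2 * l + 1) l, Nat.choose_symm_half l]
  ring

theorem choose_sq {m : ℕ} (hm : 1 ≤ m) :
    ((2 * m - 1).choose m) ^ 2 * (2 * m - 1) ≤ (2 ^ (2 * m - 1)) ^ 2 := by
  have h1 := centralBinom_sq m
  rw [← two_mul_choose hm] at h1
  have h2 : 16 ^ m = 4 * (2 ^ (2 * m - 1)) ^ 2 := by
    obtain ⟨l, rfl⟩ : ∃ l, m = l + 1 := ⟨m - 1, by omega⟩
    have e : 2 * (l + 1) - 1 = 2 * l + 1 := by omega
    rw [e, ← pow_mul, show (4 : ℕ) = 2 ^ 2 by norm_num, ← pow_add,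
      show (16 : ℕ) = 2 ^ 4 by norm_num, ← pow_mul]
    congr 1
    ring
  have h3 : ((2 * m - 1).choose m) ^ 2 * (2 * m - 1) ≤ ((2 * m - 1).choose m) ^ 2 * (2 * m + 1) :=
    Nat.mul_le_mul_left _ (by omega)
  have h4 : (2 * (2 * m - 1).choose m) ^ 2 * (2 * m + 1) =
      4 * (((2 * m - 1).choose m) ^ 2 * (2 * m + 1)) := by ring
  omega

theorem half_pos' {k n : ℕ} (hk : 1 ≤ k) (hn : k ≤ n) : 1 ≤ half k n := by
  unfold half
  rw [Nat.one_le_div_iff (by omega)]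
  omega

theorem lt_half {k : ℕ} (hk : 1 ≤ k) (n : ℕ) : n < k * (2 * half k n + 1) := by
  have h := Nat.lt_mul_div_succ (n + k) (show 0 < 2 * k by omega)
  unfold half
  have e : 2 * k * ((n + k) / (2 * k) + 1) = k * (2 * ((n + k) / (2 * k)) + 1) + k := by ring
  omega

/-- the key numerical fact -/
theorem beta_le {k n : ℕ} (hk : 1 ≤ k) (hn : k ≤ n) :
    ((2 * half k n - 1).choose (half k n) : ℝ) / 2 ^ (2 * half k n - 1) ≤
      Real.sqrt (3 * k) / Real.sqrt n := by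
  have hm := half_pos' hk hn
  have hl := lt_half hk n
  set m := half k n with hmdef
  have hn0 : (0 : ℝ) < n := by
    have : 0 < n := by omega
    exact_mod_cast this
  have h1 : (((2 * m - 1).choose m : ℕ) : ℝ) ^ 2 * ((2 * m - 1 : ℕ) : ℝ) ≤
      ((2 : ℝ) ^ (2 * m - 1)) ^ 2 := by
    exact_mod_cast choose_sq hm
  have h2 : (n : ℝ) ≤ 3 * k * ((2 * m - 1 : ℕ) : ℝ) := by
    have : n ≤ 3 * k * (2 * m - 1) := by
      obtain ⟨l, hl'⟩ : ∃ l, m = l + 1 := ⟨m - 1, by omega⟩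
      rw [hl'] at hl ⊢
      have e : 2 * (l + 1) - 1 = 2 * l + 1 := by omega
      rw [e]
      nlinarith
    exact_mod_cast this
  rw [div_le_div_iff₀ (by positivity) (Real.sqrt_pos.2 hn0)]
  refine le_of_sq_le_sq ?_ (by positivity)
  rw [mul_pow, mul_pow, Real.sq_sqrt hn0.le, Real.sq_sqrt (by positivity)]
  calc (((2 * m - 1).choose m : ℕ) : ℝ) ^ 2 * n
      ≤ (((2 * m - 1).choose m : ℕ) : ℝ) ^ 2 * (3 * k * ((2 * m - 1 : ℕ) : ℝ)) :=
        mul_le_mul_of_nonneg_left h2 (by positivity)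
    _ = 3 * k * ((((2 * m - 1).choose m : ℕ) : ℝ) ^ 2 * ((2 * m - 1 : ℕ) : ℝ)) := by ring
    _ ≤ 3 * k * ((2 : ℝ) ^ (2 * m - 1)) ^ 2 := mul_le_mul_of_nonneg_left h1 (by positivity)

theorem quant_explicit {k n d : ℕ} (hk : 1 ≤ k) (hn : k ≤ n) :
    ((4 * d * ((2 * half k n - 1).choose (half k n) : ℝ)) ^ k * 3 ^ (k * (k - 1) / 2)) /
      2 ^ (k * (2 * half k n - 1)) ≤
      (4 * Real.sqrt (3 * k) * d / Real.sqrt n) ^ k * 3 ^ (k * (k - 1) / 2) := by
  have h := beta_le hk hn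
  have e : ((4 * d * ((2 * half k n - 1).choose (half k n) : ℝ)) ^ k * 3 ^ (k * (k - 1) / 2)) /
      2 ^ (k * (2 * half k n - 1)) =
      (4 * d * (((2 * half k n - 1).choose (half k n) : ℝ) / 2 ^ (2 * half k n - 1))) ^ k *
        3 ^ (k * (k - 1) / 2) := by
    rw [mul_comm k (2 * half k n - 1), pow_mul, mul_div_right_comm, ← div_pow, mul_div_assoc]
  rw [e]
  refine mul_le_mul_of_nonneg_right ?_ (by positivity)
  refine pow_le_pow_left₀ (by positivity) ?_ k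
  calc 4 * (d : ℝ) * (((2 * half k n - 1).choose (half k n) : ℝ) / 2 ^ (2 * half k n - 1))
      ≤ 4 * d * (Real.sqrt (3 * k) / Real.sqrt n) := mul_le_mul_of_nonneg_left h (by positivity)
    _ = 4 * Real.sqrt (3 * k) * d / Real.sqrt n := by ring

theorem quant {k : ℕ} (hk : 1 ≤ k) : ∃ C : ℝ, 1 ≤ C ∧ ∀ n d : ℕ, k ≤ n →
    ((4 * d * ((2 * half k n - 1).choose (half k n) : ℝ)) ^ k * 3 ^ (k * (k - 1) / 2)) /
      2 ^ (k * (2 * half k n - 1)) ≤ C * (d / Real.sqrt n) ^ k := by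
  refine ⟨(4 * Real.sqrt (3 * k)) ^ k * 3 ^ (k * (k - 1) / 2), ?_, fun n d hn => ?_⟩
  · have hk' : (1 : ℝ) ≤ k := by exact_mod_cast hk
    have h1 : (1 : ℝ) ≤ Real.sqrt (3 * k) := by
      rw [Real.one_le_sqrt]
      linarith
    have h2 : (1 : ℝ) ≤ (4 * Real.sqrt (3 * k)) ^ k := one_le_pow₀ (by linarith)
    have h3 : (1 : ℝ) ≤ 3 ^ (k * (k - 1) / 2) := one_le_pow₀ (by norm_num)
    nlinarith
  · refine (quant_explicit hk hn).trans (le_of_eq ?_)
    rw [mul_div_assoc, mul_pow]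
    ring

end Pool.Agent.helper91.XM
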