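import Pool.Agent.helper91.XM.VH
import Pool.Agent.helper91.XM.Diff

/-!
# XM-A3: the reduction lemma
-/

set_option autoImplicit false
set_option linter.unusedSectionVars false

open Finset

namespace Pool.Agent.helper91.XM

/-- classes of functions of degree at most `d` on a set `Y` -/
structure Cls (F Y : Type) [Field F] where
  /-- functions of degree at most `d` -/
  V : ℕ → Submodule F (Y → F)
  V_one : (1 : Y → F) ∈ V 0
  V_mono : ∀ {a b : ℕ}, a ≤ b → V a ≤ V b
  V_mul : ∀ {a b : ℕ} {f g : Y → F}, f ∈ V a → g ∈ V b → f * g ∈ V (a + b)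

variable {F X Y : Type} [Field F] [Fintype X] [DecidableEq X]
variable {H : Type} [AddCommGroup H] [Module F H]

/-- all coefficients of the family `T` of endomorphisms have degree at most `a` -/
def Coef (C : Cls F Y) (a : ℕ) {M : Type} [AddCommGroup M] [Module F M]
    (T : Y → Module.End F M) : Prop :=
  ∀ (φ : Module.Dual F M) (v : M), (fun y => φ (T y v)) ∈ C.V a

theorem Coef.comp {C : Cls F Y} {a b : ℕ} {M : Type} [AddCommGroup M] [Module F M]
    [FiniteDimensional F M] {S T : Y → Module.End F M} (hS : Coef C a S) (hT : Coef C b T) :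
    Coef C (a + b) fun y => S y ∘ₗ T y := by
  intro φ v
  let e := Module.finBasis F M
  have h : (fun y => φ ((S y ∘ₗ T y) v)) =
      ∑ i, (fun y => φ (S y (e i))) * (fun y => e.coord i (T y v)) := by
    funext y
    rw [Finset.sum_apply]
    have h1 : T y v = ∑ i, e.coord i (T y v) • e i := by
      simp only [Module.Basis.coord_apply]
      exact (e.sum_repr (T y v)).symm
    conv_lhs => rw [LinearMap.comp_apply, h1]
    rw [map_sum, map_sum]
    refine Finset.sum_congr rfl fun i _ => ?_
    rw [map_smul, map_smul, smul_eq_mul, Pi.mul_apply, mul_comm]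
  rw [h]
  exact Submodule.sum_mem _ fun i _ => C.V_mul (hS φ (e i)) (hT (e.coord i) v)

theorem Cls.const_mem (C : Cls F Y) (a : ℕ) (c : F) : (fun _ : Y => c) ∈ C.V a := by
  have h := C.V_mono (Nat.zero_le a) (Submodule.smul_mem _ c C.V_one)
  have e : (c • (1 : Y → F)) = fun _ => c := by
    funext y
    simp
  rwa [e] at h

theorem Coef.uu {C : Cls F Y} {a : ℕ} {M : Type} [AddCommGroup M] [Module F M]
    {q : Y → Module.End F M} (hq : Coef C a q) : Coef C a fun y => uu (q y) := by
  intro φ v
  have h : (fun y => φ ((XM.uu (q y)) v)) =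
      ((fun y => (φ ∘ₗ LinearMap.inl F M M) (q y v.1)) +
        ((fun _ => (φ ∘ₗ LinearMap.inl F M M) v.2) -
          fun y => (φ ∘ₗ LinearMap.inl F M M) (q y v.2))) +
      (((fun _ => (φ ∘ₗ LinearMap.inr F M M) v.1) -
          fun y => (φ ∘ₗ LinearMap.inr F M M) (q y v.1)) +
        fun y => (φ ∘ₗ LinearMap.inr F M M) (q y v.2)) := by
    funext y
    have h1 : (XM.uu (q y)) v = LinearMap.inl F M M (q y v.1 + (v.2 - q y v.2)) +
        LinearMap.inr F M M ((v.1 - q y v.1) + q y v.2) := by
      simp [XM.uu]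
    rw [h1]
    simp only [map_add, map_sub, Pi.add_apply, Pi.sub_apply, LinearMap.comp_apply]
  rw [h]
  exact Submodule.add_mem _
    (Submodule.add_mem _ (hq _ _) (Submodule.sub_mem _ (C.const_mem _ _) (hq _ _)))
    (Submodule.add_mem _ (Submodule.sub_mem _ (C.const_mem _ _) (hq _ _)) (hq _ _))

theorem Coef.prodMap {C : Cls F Y} {a : ℕ} {M : Type} [AddCommGroup M] [Module F M]
    {p q : Y → Module.End F M} (hp : Coef C a p) (hq : Coef C a q) :
    Coef C a fun y => LinearMap.prodMap (p y) (1 - q y) := by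
  intro φ v
  have h : (fun y => φ ((LinearMap.prodMap (p y) (1 - q y)) v)) =
      (fun y => (φ ∘ₗ LinearMap.inl F M M) (p y v.1)) +
        ((fun _ => (φ ∘ₗ LinearMap.inr F M M) v.2) -
          fun y => (φ ∘ₗ LinearMap.inr F M M) (q y v.2)) := by
    funext y
    have h1 : (LinearMap.prodMap (p y) (1 - q y)) v = LinearMap.inl F M M (p y v.1) +
        LinearMap.inr F M M (v.2 - q y v.2) := by
      simp
    rw [h1]
    simp only [map_add, map_sub, Pi.add_apply, Pi.sub_apply, LinearMap.comp_apply]
  rw [h]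
  exact Submodule.add_mem _ (hp _ _) (Submodule.sub_mem _ (C.const_mem _ _) (hq _ _))

theorem Coef.dd {C : Cls F Y} {a : ℕ} {M : Type} [AddCommGroup M] [Module F M]
    [FiniteDimensional F M] {p q : Y → Module.End F M} (hp : Coef C a p) (hq : Coef C a q) :
    Coef C (3 * a) fun y => dd (p y) (q y) := by
  have h := hq.uu.comp ((hp.prodMap hq).comp hq.uu)
  have e : a + (a + a) = 3 * a := by ring
  rw [e] at h
  exact h

/-- the function `z ↦ lag s x z • h` -/
def ext1 (B : Blk F X) (s : Bool) (x : X) : H →ₗ[F] VH (B.W 0) H where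
  toFun h := ⟨fun z => B.lag s x z • h, fun φ => by
    have : (fun z => φ (B.lag s x z • h)) = φ h • B.lag s x := by
      funext z
      simp [mul_comm]
    rw [this]
    exact Submodule.smul_mem _ _ (B.lag_mem s x)⟩
  map_add' h h' := by
    apply Subtype.ext
    funext z
    simp
  map_smul' c h := by
    apply Subtype.ext
    funext z
    simp [smul_comm c]

theorem TT_eq_sum (B : Blk F X) (s : Bool) (P : X → Module.End F H) (f : VH (B.W 0) H) :
    TT B s P f = ∑ x ∈ B.S s, ext1 B s x (P x (f.1 x)) := by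
  apply Subtype.ext
  funext z
  rw [TT_val, AddSubmonoidClass.coe_finset_sum, Finset.sum_apply]
  rfl

theorem Coef.TT {C : Cls F Y} {a : ℕ} (B : Blk F X) (s : Bool) {P : X → Y → Module.End F H}
    (hP : ∀ x, Coef C a fun y => P x y) : Coef C a fun y => TT B s fun x => P x y := by
  intro φ v
  have h : (fun y => φ ((XM.TT B s fun x => P x y) v)) =
      ∑ x ∈ B.S s, fun y => (φ ∘ₗ ext1 B s x) (P x y (v.1 x)) := by
    funext y
    rw [TT_eq_sum, map_sum, Finset.sum_apply]
    rfl
  rw [h]
  exact Submodule.sum_mem _ fun x _ => hP x _ _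

theorem reduction [FiniteDimensional F H] (B : Blk F X) (C : Cls F Y) {d : ℕ}
    (P : X → Y → Module.End F H) (hP : ∀ x y, P x y * P x y = P x y)
    (hx : ∀ (y : Y) (φ : Module.Dual F H) (h : H), (fun x => φ (P x y h)) ∈ B.V d)
    (hy : ∀ (x : X) (φ : Module.Dual F H) (h : H), (fun y => φ (P x y h)) ∈ C.V d) :
    ∃ (Q : Type) (_ : AddCommGroup Q) (_ : Module F Q) (_ : FiniteDimensional F Q)
      (E : Y → Module.End F Q),
      (∀ y, E y * E y = E y) ∧
      (∀ (φ : Module.Dual F Q) (h : Q), (fun y => φ (E y h)) ∈ C.V (3 * d)) ∧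
      Module.finrank F Q + 2 * (Module.finrank F (B.W (2 * d)) * Module.finrank F H) =
        2 * (Module.finrank F (B.W 0) * Module.finrank F H) ∧
      ∀ y, (2 * Module.finrank F (LinearMap.range (E y)) - Module.finrank F Q : ℤ) =
        ∑ x ∈ B.S false, (2 * Module.finrank F (LinearMap.range (P x y)) - Module.finrank F H : ℤ) -
        ∑ x ∈ B.S true, (2 * Module.finrank F (LinearMap.range (P x y)) - Module.finrank F H : ℤ) := by
  let p : Y → Module.End F (VH (B.W 0) H) := fun y => TT B false fun x => P x y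
  let q : Y → Module.End F (VH (B.W 0) H) := fun y => TT B true fun x => P x y
  have hp : ∀ y, p y * p y = p y := fun y => TT_idem B false fun x => hP x y
  have hq : ∀ y, q y * q y = q y := fun y => TT_idem B true fun x => hP x y
  let W1 : Submodule F (VH (B.W 0) H) := (VH (B.W d) H).comap (VH (B.W 0) H).subtype
  let W2 : Submodule F (VH (B.W 0) H) := (VH (B.W (2 * d)) H).comap (VH (B.W 0) H).subtype
  have h12 : W2 ≤ W1 := Submodule.comap_mono (VH_mono (B.W_anti (by omega)))
  have val : ∀ (s : Bool) (y : Y) (a : VH (B.W 0) H), a ∈ W1 →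
      (TT B s (fun x => P x y) a).1 = fun x => P x y (a.1 x) :=
    fun s y a ha => TT_eq B s (hx y) a ha
  have hpq : ∀ y, ∀ a ∈ W1, p y a = q y a := by
    intro y a ha
    apply Subtype.ext
    show (TT B false (fun x => P x y) a).1 = (TT B true (fun x => P x y) a).1
    rw [val false y a ha, val true y a ha]
  have hqW : ∀ y, ∀ a ∈ W2, q y a ∈ W1 := by
    intro y a ha
    show (TT B true (fun x => P x y) a).1 ∈ VH (B.W d) H
    rw [val true y a (h12 ha)]
    refine VH_mul B (hx y) (D := d) ?_
    have e : d + d = 2 * d := by ring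
    rw [e]
    exact ha
  have hcom : ∀ y, W2.prod W2 ≤ (W2.prod W2).comap (dd (p y) (q y)) :=
    fun y => dd_comap (hq y) h12 (hqW y) (hpq y)
  have fW2 : Module.finrank F W2 = Module.finrank F (B.W (2 * d)) * Module.finrank F H := by
    rw [← finrank_VH]
    exact LinearEquiv.finrank_eq
      (Submodule.comapSubtypeEquivOfLe (VH_mono (B.W_anti (Nat.zero_le _))))
  have fL : Module.finrank F (VH (B.W 0) H) = Module.finrank F (B.W 0) * Module.finrank F H :=
    finrank_VH _
  refine ⟨(VH (B.W 0) H × VH (B.W 0) H) ⧸ W2.prod W2, inferInstance, inferInstance, inferInstance,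
    fun y => (W2.prod W2).mapQ (W2.prod W2) (dd (p y) (q y)) (hcom y), ?_, ?_, ?_, ?_⟩
  · exact fun y => mapQ_idem (dd_idem (hp y) (hq y)) _ _
  · intro φ h
    obtain ⟨v, rfl⟩ := Submodule.mkQ_surjective _ h
    have hc : Coef C (3 * d) fun y => dd (p y) (q y) :=
      (Coef.TT B false fun x => hy x).dd (Coef.TT B true fun x => hy x)
    exact hc (φ ∘ₗ (W2.prod W2).mkQ) v
  · rw [← fW2, ← fL]
    exact finrank_quot W2
  · intro y
    have h1 := finrank_mapQ_dd (hp y) (hq y) h12 (hqW y) (hpq y) (hcom y)
    have h2 := finrank_quot (F := F) W2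
    have h3 : Module.finrank F (LinearMap.range (p y)) =
        ∑ x ∈ B.S false, Module.finrank F (LinearMap.range (P x y)) :=
      finrank_range_TT B false _
    have h4 : Module.finrank F (LinearMap.range (q y)) =
        ∑ x ∈ B.S true, Module.finrank F (LinearMap.range (P x y)) :=
      finrank_range_TT B true _
    rw [h3, h4] at h1
    have h5 := card_S B false
    have h6 := card_S B true
    simp only [Finset.sum_sub_distrib, Finset.sum_const, nsmul_eq_mul, h5, h6,
      ← Finset.mul_sum]
    zify at h1 h2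
    linarith

end Pool.Agent.helper91.XM
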