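import Mathlib

/-!
# MP_bd3c72_lc: XOR of majorities against `F_2`-polynomials: definitions of the statement

`xorMaj k n` is the XOR of `k` majorities on disjoint blocks of (the same, odd) size
`2 * half k n - 1`; block `j` consists of the coordinates `k * i + j`, `i < 2 * half k n - 1`; the at
most `2 * k - 1` last coordinates are ignored.
-/

set_option autoImplicit false

open Finset

namespace Pool.Agent.helper91.XM

/-- `(-1)^a` for `a` in `F_2`. -/
def sgn (a : ZMod 2) : ℝ := if a = 0 then 1 else -1

/-- Coordinate `i` of `x` (`0` if there is none). -/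
def bit {n : ℕ} (x : Fin n → ZMod 2) (i : ℕ) : ZMod 2 := if h : i < n then x ⟨i, h⟩ else 0

/-- The largest `m` with `k * (2 * m - 1) ≤ n`. -/
def half (k n : ℕ) : ℕ := (n + k) / (2 * k)

/-- The number of ones in block `j`, the coordinates `k * i + j` with `i < 2 * half k n - 1`. -/
def ones (k n : ℕ) (x : Fin n → ZMod 2) (j : ℕ) : ℕ :=
  ((range (2 * half k n - 1)).filter fun i => bit x (k * i + j) = 1).card

/-- The XOR of the majorities of the `k` blocks. -/
def xorMaj (k n : ℕ) (x : Fin n → ZMod 2) : ZMod 2 :=
  ∑ j ∈ range k, if half k n ≤ ones k n x j then 1 else 0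

/-- The correlation of `f` with the polynomial `p`. -/
noncomputable def cor {n : ℕ} (f : (Fin n → ZMod 2) → ZMod 2)
    (p : MvPolynomial (Fin n) (ZMod 2)) : ℝ :=
  |∑ x : Fin n → ZMod 2, sgn (f x + MvPolynomial.eval x p)| / 2 ^ n

/-- The Boolean function on words defined by a sequence of functions `f n : F_2^n → F_2`:
the value of `f |w|` at the word `w`. -/
def dec (f : (n : ℕ) → (Fin n → ZMod 2) → ZMod 2) (w : List Bool) : Bool :=
  decide (f w.length (fun i => if w.get i then 1 else 0) = 1)

/-- The language `L` is in `NP`: there are a polynomial `q` and a polynomial-time verifier `V`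
(Mathlib's `TM2ComputableInPolyTime`, pairs of words encoded by `encodingProd`) such that `x ∈ L` iff
`V (x, w) = true` for some word `w` of length at most `q (length of x)`. -/
def InNP (L : Set (List Bool)) : Prop :=
  ∃ (q : Polynomial ℕ) (V : List Bool × List Bool → Bool),
    Nonempty (Turing.TM2ComputableInPolyTime
      (Computability.encodingProd (Computability.encodingList Bool)
        (Computability.encodingList Bool)).encode Computability.encodeBool V) ∧
    ∀ x : List Bool, x ∈ L ↔ ∃ w : List Bool, w.length ≤ q.eval x.length ∧ V (x, w) = true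

end Pool.Agent.helper91.XM
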