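import Pool.Agent.helper91.XM.Defs

/-!
# XM-A1: vector-valued functions on a block

STUB (module A1).  Hints: choose a basis `b` of `H` (`Module.finBasis F H`), `h = ∑ i, b.repr h i • b i`.
* `finrank_VH`: linear equivalence `(Fin q → W) ≃ VH W H`.
* `VH_mul`: `φ (P x (f x)) = ∑ i, φ (P x (b i)) * b.repr (f x) i` (`b.coord i` is a functional).
* `TT s P f = ∑ x ∈ S s, (lag s x ·) • P x (f x)`; at `z ∈ S s` it is `P z (f z)` (`lag_apply`).
* `TT_eq`: for `f ∈ VH (W d) H` both sides are in `VH (W 0) H` and agree on `S s`; use `inj` (applied to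
  `φ ∘ (difference)` for all `φ`; a vector killed by all functionals is `0`).
* `finrank_range_TT`: `restriction to S s` is an isomorphism of `VH (W 0) H` with `S s → H`; it
  conjugates `TT s P` to the block diagonal map, whose range is the product of the ranges
  (`Submodule.pi`).
-/

set_option autoImplicit false

open Finset

namespace Pool.Agent.helper91.XM

variable {F X : Type} [Field F] [Fintype X] [DecidableEq X]
variable {H : Type} [AddCommGroup H] [Module F H]

/-- the functions `f : X → H` all of whose coordinates are in `W` -/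
def VH (W : Submodule F (X → F)) (H : Type) [AddCommGroup H] [Module F H] :
    Submodule F (X → H) where
  carrier := {f | ∀ φ : Module.Dual F H, (fun x => φ (f x)) ∈ W}
  zero_mem' := fun φ => by
    have : (fun x : X => φ ((0 : X → H) x)) = 0 := by
      funext x
      simp
    rw [this]
    exact W.zero_mem
  add_mem' := fun {f g} hf hg φ => by
    have : (fun x : X => φ ((f + g) x)) = (fun x => φ (f x)) + fun x => φ (g x) := by
      funext x
      simp
    rw [this]
    exact W.add_mem (hf φ) (hg φ)
  smul_mem' := fun c f hf φ => by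
    have : (fun x : X => φ ((c • f) x)) = c • fun x => φ (f x) := by
      funext x
      simp
    rw [this]
    exact W.smul_mem c (hf φ)

theorem mem_VH {W : Submodule F (X → F)} {f : X → H} :
    f ∈ VH W H ↔ ∀ φ : Module.Dual F H, (fun x => φ (f x)) ∈ W := Iff.rfl

theorem VH_mono {W W' : Submodule F (X → F)} (h : W ≤ W') : VH W H ≤ VH W' H :=
  fun _ hf φ => h (hf φ)

/-- coordinates with respect to a basis of `H` -/
noncomputable def VHequiv [FiniteDimensional F H] (W : Submodule F (X → F)) :
    (Fin (Module.finrank F H) → W) ≃ₗ[F] VH W H where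
  toFun g := ⟨fun x => ∑ i, (g i).1 x • Module.finBasis F H i, fun φ => by
    have : (fun x => φ (∑ i, (g i).1 x • Module.finBasis F H i)) =
        ∑ i, φ (Module.finBasis F H i) • (g i).1 := by
      funext x
      simp [map_sum, Finset.sum_apply, mul_comm]
    rw [this]
    exact Submodule.sum_mem _ fun i _ => Submodule.smul_mem _ _ (g i).2⟩
  map_add' g g' := by
    apply Subtype.ext
    funext x
    simp [Finset.sum_add_distrib, add_smul]
  map_smul' c g := by
    apply Subtype.ext
    funext x
    simp [Finset.smul_sum, mul_smul]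
  invFun f := fun i => ⟨fun x => (Module.finBasis F H).coord i (f.1 x), f.2 _⟩
  left_inv g := by
    funext i
    apply Subtype.ext
    funext x
    simp only [Module.Basis.coord_apply]
    rw [Module.Basis.repr_sum_self]
  right_inv f := by
    apply Subtype.ext
    funext x
    simp only [Module.Basis.coord_apply]
    exact (Module.finBasis F H).sum_repr (f.1 x)

theorem finrank_VH [FiniteDimensional F H] (W : Submodule F (X → F)) :
    Module.finrank F (VH W H) = Module.finrank F W * Module.finrank F H := by
  rw [← LinearEquiv.finrank_eq (VHequiv (H := H) W), Module.finrank_pi_fintype]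
  simp [mul_comm]

theorem VH_mul [FiniteDimensional F H] (B : Blk F X) {d D : ℕ} {P : X → Module.End F H}
    (hP : ∀ (φ : Module.Dual F H) (h : H), (fun x => φ (P x h)) ∈ B.V d) {f : X → H}
    (hf : f ∈ VH (B.W (D + d)) H) : (fun x => P x (f x)) ∈ VH (B.W D) H := by
  intro φ
  let e := Module.finBasis F H
  have h : (fun x => φ (P x (f x))) =
      ∑ i, (fun x => φ (P x (e i))) * (fun x => e.coord i (f x)) := by
    funext x
    rw [Finset.sum_apply]
    have h1 : f x = ∑ i, e.coord i (f x) • e i := by
      simp only [Module.Basis.coord_apply]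
      exact (e.sum_repr (f x)).symm
    conv_lhs => rw [h1]
    rw [map_sum, map_sum]
    refine Finset.sum_congr rfl fun i _ => ?_
    rw [map_smul, map_smul, smul_eq_mul, Pi.mul_apply, mul_comm]
  rw [h]
  exact Submodule.sum_mem _ fun i _ => B.W_mul (hP φ (e i)) (hf (e.coord i))

/-- multiplication by `P` on the functions on `S s`, as an operator on `VH (W 0) H` -/
def TT (B : Blk F X) (s : Bool) (P : X → Module.End F H) : Module.End F (VH (B.W 0) H) where
  toFun f := ⟨fun z => ∑ x ∈ B.S s, B.lag s x z • P x (f.1 x), fun φ => by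
    have : (fun z => φ (∑ x ∈ B.S s, B.lag s x z • P x (f.1 x))) =
        ∑ x ∈ B.S s, φ (P x (f.1 x)) • B.lag s x := by
      funext z
      simp [map_sum, Finset.sum_apply, mul_comm]
    rw [this]
    exact Submodule.sum_mem _ fun x _ => Submodule.smul_mem _ _ (B.lag_mem s x)⟩
  map_add' f g := by
    apply Subtype.ext
    funext z
    simp [Finset.sum_add_distrib]
  map_smul' c f := by
    apply Subtype.ext
    funext z
    simp [Finset.smul_sum, smul_comm c]

theorem TT_val (B : Blk F X) (s : Bool) (P : X → Module.End F H) (f : VH (B.W 0) H) (z : X) :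
    (TT B s P f).1 z = ∑ x ∈ B.S s, B.lag s x z • P x (f.1 x) := rfl

theorem TT_on (B : Blk F X) (s : Bool) (P : X → Module.End F H) (f : VH (B.W 0) H) {z : X}
    (hz : z ∈ B.S s) : (TT B s P f).1 z = P z (f.1 z) := by
  rw [TT_val, Finset.sum_eq_single z]
  · rw [B.lag_apply s z hz z hz, if_pos rfl, one_smul]
  · intro x hx hxz
    rw [B.lag_apply s x hx z hz, if_neg (Ne.symm hxz), zero_smul]
  · intro h
    exact absurd hz h

theorem VH_inj (B : Blk F X) (s : Bool) {f g : VH (B.W 0) H} (h : ∀ z ∈ B.S s, f.1 z = g.1 z) :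
    f = g := by
  apply Subtype.ext
  funext x
  rw [← sub_eq_zero, ← Module.forall_dual_apply_eq_zero_iff F (f.1 x - g.1 x)]
  intro φ
  have h1 : (fun x => φ (f.1 x - g.1 x)) ∈ B.W 0 := by
    have : (fun x => φ (f.1 x - g.1 x)) = (fun x => φ (f.1 x)) - fun x => φ (g.1 x) := by
      funext x
      simp
    rw [this]
    exact Submodule.sub_mem _ (f.2 φ) (g.2 φ)
  have h2 := B.inj s _ h1 fun z hz => by
    show φ (f.1 z - g.1 z) = 0
    rw [h z hz, sub_self, map_zero]
  exact congrFun h2 x

theorem TT_idem (B : Blk F X) (s : Bool) {P : X → Module.End F H} (hP : ∀ x, P x * P x = P x) :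
    TT B s P * TT B s P = TT B s P := by
  apply LinearMap.ext
  intro f
  apply VH_inj B s
  intro z hz
  rw [Module.End.mul_apply, TT_on B s P _ hz, TT_on B s P _ hz, ← Module.End.mul_apply, hP]

theorem TT_eq [FiniteDimensional F H] (B : Blk F X) (s : Bool) {d : ℕ} {P : X → Module.End F H}
    (hP : ∀ (φ : Module.Dual F H) (h : H), (fun x => φ (P x h)) ∈ B.V d) (f : VH (B.W 0) H)
    (hf : f.1 ∈ VH (B.W d) H) : (TT B s P f).1 = fun x => P x (f.1 x) := by
  have h0 : (fun x => P x (f.1 x)) ∈ VH (B.W 0) H :=
    VH_mul B hP (D := 0) (by rw [zero_add]; exact hf)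
  have h1 : TT B s P f = ⟨fun x => P x (f.1 x), h0⟩ := by
    apply VH_inj B s
    intro z hz
    rw [TT_on B s P f hz]
  rw [h1]

/-- restriction to `S s` -/
def resL (B : Blk F X) (s : Bool) (H : Type) [AddCommGroup H] [Module F H] :
    VH (B.W 0) H →ₗ[F] (B.S s → H) where
  toFun f := fun x => f.1 x.1
  map_add' _ _ := rfl
  map_smul' _ _ := rfl

theorem resL_bij (B : Blk F X) (s : Bool) (H : Type) [AddCommGroup H] [Module F H] :
    Function.Bijective (resL B s H) := by
  constructor
  · intro f g h
    exact VH_inj B s fun z hz => congrFun h ⟨z, hz⟩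
  · intro g
    have hm : (fun z => ∑ x : B.S s, B.lag s x.1 z • g x) ∈ VH (B.W 0) H := by
      intro φ
      have : (fun z => φ (∑ x : B.S s, B.lag s x.1 z • g x)) =
          ∑ x : B.S s, φ (g x) • B.lag s x.1 := by
        funext z
        simp [map_sum, Finset.sum_apply, mul_comm]
      rw [this]
      exact Submodule.sum_mem _ fun x _ => Submodule.smul_mem _ _ (B.lag_mem s x.1)
    refine ⟨⟨_, hm⟩, ?_⟩
    funext z
    show ∑ x : B.S s, B.lag s x.1 z.1 • g x = g z
    rw [Finset.sum_eq_single z]
    · rw [B.lag_apply s z.1 z.2 z.1 z.2, if_pos rfl, one_smul]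
    · intro x _ hxz
      rw [B.lag_apply s x.1 x.2 z.1 z.2, if_neg, zero_smul]
      intro he
      exact hxz (Subtype.ext he.symm)
    · intro h
      exact absurd (Finset.mem_univ z) h

theorem finrank_range_TT [FiniteDimensional F H] (B : Blk F X) (s : Bool)
    (P : X → Module.End F H) :
    Module.finrank F (LinearMap.range (TT B s P)) =
      ∑ x ∈ B.S s, Module.finrank F (LinearMap.range (P x)) := by
  let R := resL B s H
  have hR := resL_bij B s H
  -- the product of the ranges
  let J : (∀ x : B.S s, LinearMap.range (P x.1)) →ₗ[F] (B.S s → H) :=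
    LinearMap.pi fun x => (LinearMap.range (P x.1)).subtype ∘ₗ LinearMap.proj x
  have hJ : Function.Injective J := by
    intro f g h
    funext x
    exact Subtype.ext (congrFun h x)
  have hmap : (LinearMap.range (TT B s P)).map R = LinearMap.range J := by
    apply le_antisymm
    · rintro _ ⟨_, ⟨f, rfl⟩, rfl⟩
      refine ⟨fun x => ⟨P x.1 (f.1 x.1), ⟨_, rfl⟩⟩, ?_⟩
      funext x
      exact (TT_on B s P f x.2).symm
    · rintro _ ⟨g, rfl⟩
      choose v hv using fun x : B.S s => (g x).2
      obtain ⟨f, hf⟩ := hR.2 v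
      refine ⟨TT B s P f, ⟨f, rfl⟩, ?_⟩
      funext x
      show (TT B s P f).1 x.1 = (g x).1
      rw [TT_on B s P f x.2, ← hv x, ← hf]
      rfl
  have h1 : Module.finrank F ((LinearMap.range (TT B s P)).map R) =
      Module.finrank F (LinearMap.range (TT B s P)) :=
    LinearEquiv.finrank_map_eq (LinearEquiv.ofBijective (resL B s H) hR) _
  rw [← h1, hmap, LinearMap.finrank_range_of_inj hJ, Module.finrank_pi_fintype,
    ← Finset.sum_coe_sort (B.S s) fun x => Module.finrank F (LinearMap.range (P x))]

theorem card_S (B : Blk F X) (s : Bool) : (B.S s).card = Module.finrank F (B.W 0) := by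
  have h1 := LinearEquiv.finrank_eq (LinearEquiv.ofBijective (resL B s F) (resL_bij B s F))
  rw [finrank_VH, Module.finrank_self, mul_one, Module.finrank_fintype_fun_eq_card,
    Fintype.card_coe] at h1
  exact h1.symm

end Pool.Agent.helper91.XM
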